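import Pool.Agent.Q45.HR.Herm

/-! Continuation of representations along segments. -/

set_option autoImplicit false

open Set Filter Metric Topology ComplexConjugate

namespace Pool.Agent.Q45.HR

variable {n : ℕ}

/-- `p = ∑ ε_l |f_l|²` on `S` with analytic `f_l` -/
def Rep (p : (Fin n → ℂ) → ℝ) (S : Set (Fin n → ℂ)) {R : ℕ} (ε : Fin R → ℝ)
    (f : Fin R → (Fin n → ℂ) → ℂ) : Prop :=
  (∀ l, ε l = 1 ∨ ε l = -1) ∧ (∀ l, AnalyticOnNhd ℂ (f l) S) ∧
    ∀ z ∈ S, p z = ∑ l, ε l * Complex.normSq (f l z)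

theorem Rep.mono {p : (Fin n → ℂ) → ℝ} {S T : Set (Fin n → ℂ)} {R : ℕ} {ε : Fin R → ℝ}
    {f : Fin R → (Fin n → ℂ) → ℂ} (h : Rep p S ε f) (hT : T ⊆ S) : Rep p T ε f :=
  ⟨h.1, fun l => (h.2.1 l).mono hT, fun z hz => h.2.2 z (hT hz)⟩

/-- If the functions are combinations of fewer functions then fewer terms suffice. -/
theorem reduce {p : (Fin n → ℂ) → ℝ} {S : Set (Fin n → ℂ)} {R R' : ℕ} {ε : Fin R → ℝ}
    {f : Fin R → (Fin n → ℂ) → ℂ} (h : Rep p S ε f) (g : Fin R' → (Fin n → ℂ) → ℂ)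
    (hg : ∀ l, AnalyticOnNhd ℂ (g l) S) (T : Fin R → Fin R' → ℂ)
    (hT : ∀ l, ∀ z ∈ S, f l z = ∑ i, T l i * g i z) :
    ∃ (ε' : Fin R' → ℝ) (f' : Fin R' → (Fin n → ℂ) → ℂ), Rep p S ε' f' := by
  obtain ⟨ε', U, hε', hU⟩ := signed (Matrix.of fun i j => ∑ l, (ε l : ℂ) * (T l i * conj (T l j)))
    g p S (by
      intro z hz
      rw [h.2.2 z hz]
      push_cast
      have h1 : ∀ l, (ε l : ℂ) * (Complex.normSq (f l z) : ℂ) =
          ∑ i, ∑ j, (ε l : ℂ) * (T l i * conj (T l j)) * (g i z * conj (g j z)) := by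
        intro l
        rw [← Complex.mul_conj, hT l z hz, map_sum, Finset.sum_mul_sum, Finset.mul_sum]
        refine Finset.sum_congr rfl fun i _ => ?_
        rw [Finset.mul_sum]
        refine Finset.sum_congr rfl fun j _ => ?_
        rw [map_mul]
        ring
      rw [Finset.sum_congr rfl fun l _ => h1 l]
      rw [Finset.sum_comm]
      refine Finset.sum_congr rfl fun i _ => ?_
      rw [Finset.sum_comm]
      refine Finset.sum_congr rfl fun j _ => ?_
      rw [Matrix.of_apply, Finset.sum_mul])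
  refine ⟨ε', fun l x => ∑ i, U l i * g i x, hε', ?_, hU⟩
  intro l
  have : (fun x => ∑ i, U l i * g i x) = ∑ i, fun x => U l i * g i x := by
    funext x
    rw [Finset.sum_apply]
  show AnalyticOnNhd ℂ (fun x => ∑ i, U l i * g i x) S
  rw [this]
  exact Finset.analyticOnNhd_sum _ fun i _ => analyticOnNhd_const.mul (hg i)

theorem polar_rep {R C : ℕ} {q : Fin n → ℂ} {ρ : ℝ} {ε : Fin R → ℝ} {f : Fin R → (Fin n → ℂ) → ℂ}
    {ε' : Fin C → ℝ} {h : Fin C → (Fin n → ℂ) → ℂ} (hf : ∀ l, AnalyticOnNhd ℂ (f l) (ball q ρ))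
    (hh : ∀ l, AnalyticOnNhd ℂ (h l) (ball q ρ))
    (heq : ∀ z ∈ ball q ρ, ∑ l, ε l * Complex.normSq (f l z) = ∑ l, ε' l * Complex.normSq (h l z))
    {z w : Fin n → ℂ} (hz : z ∈ ball q (ρ / 5)) (hw : w ∈ ball q (ρ / 5)) :
    ∑ l, (ε l : ℂ) * (f l z * star (f l w)) = ∑ l, (ε' l : ℂ) * (h l z * star (h l w)) := by
  have hterm : ∀ u : (Fin n → ℂ) → ℂ, AnalyticOnNhd ℂ u (ball q ρ) →
      DifferentiableOn ℂ (fun t : ℂ × ℂ => u (w + t.1 • (z - w)) * star (u (w + star t.2 • (z - w))))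
        (ball 0 2 ×ˢ ball 0 2) := by
    intro u hu
    refine DifferentiableOn.mul ?_ ?_
    · refine hu.differentiableOn.comp (f := fun t : ℂ × ℂ => w + t.1 • (z - w)) (by fun_prop) ?_
      intro t ht
      rw [mem_prod, mem_ball_zero_iff, mem_ball_zero_iff] at ht
      exact comb_mem hw hz ht.1
    · intro t ht
      rw [mem_prod, mem_ball_zero_iff, mem_ball_zero_iff] at ht
      refine DifferentiableAt.differentiableWithinAt ?_
      have h1 : w + star t.2 • (z - w) ∈ ball q ρ := comb_mem hw hz (by rw [norm_star]; exact ht.2)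
      have h2 : DifferentiableAt ℂ (fun s : ℂ => u (w + s • (z - w))) (star t.2) :=
        (hu _ h1).differentiableAt.comp (f := fun s : ℂ => w + s • (z - w)) (star t.2) (by fun_prop)
      have h3 := h2.star_star
      rw [star_star] at h3
      exact h3.comp (f := fun t : ℂ × ℂ => t.2) t differentiableAt_snd
  have h1 := polar (G := fun t => ∑ l, (ε l : ℂ) * (f l (w + t.1 • (z - w)) *
      star (f l (w + star t.2 • (z - w)))) - ∑ l, (ε' l : ℂ) * (h l (w + t.1 • (z - w)) *
      star (h l (w + star t.2 • (z - w))))) (by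
    refine DifferentiableOn.sub ?_ ?_
    · exact DifferentiableOn.fun_sum fun l _ => (hterm _ (hf l)).const_mul _
    · exact DifferentiableOn.fun_sum fun l _ => (hterm _ (hh l)).const_mul _) (by
    intro s hs
    have hs' : ‖s‖ < 2 := by rwa [mem_ball_zero_iff] at hs
    have h2 : star (conj s) = s := Complex.conj_conj s
    simp only [h2]
    rw [sub_eq_zero]
    have h3 := heq _ (comb_mem hw hz hs')
    have h4 := congrArg (fun x : ℝ => (x : ℂ)) h3
    simp only [Complex.ofReal_sum, Complex.ofReal_mul, ← Complex.mul_conj] at h4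
    exact h4)
  simp only [one_smul, add_sub_cancel, star_zero, zero_smul, add_zero] at h1
  rwa [sub_eq_zero] at h1

theorem normSq_analytic {S : Set (Fin n → ℂ)} {u : (Fin n → ℂ) → ℂ} (hu : AnalyticOnNhd ℂ u S) :
    AnalyticOnNhd ℝ (fun z => Complex.normSq (u z)) S := by
  intro z hz
  have h1 : AnalyticAt ℝ u z := (hu z hz).restrictScalars
  have h2 : AnalyticAt ℝ (fun z => (u z).re) z :=
    AnalyticAt.comp (g := fun t : ℂ => t.re) (Complex.reCLM.analyticAt _) h1
  have h3 : AnalyticAt ℝ (fun z => (u z).im) z :=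
    AnalyticAt.comp (g := fun t : ℂ => t.im) (Complex.imCLM.analyticAt _) h1
  have h4 := (h2.mul h2).add (h3.mul h3)
  refine h4.congr (Eventually.of_forall fun z => ?_)
  simp only [Pi.add_apply, Pi.mul_apply]
  exact (Complex.normSq_apply _).symm

theorem ext_step {p : (Fin n → ℂ) → ℝ} (hp : AnalyticOnNhd ℝ p univ) {T U : Set (Fin n → ℂ)}
    (hT : IsOpen T) (hTc : Convex ℝ T) (hU : IsOpen U) (hUc : Convex ℝ U) (hne : (T ∩ U).Nonempty)
    {R C : ℕ} {ε : Fin R → ℝ} {f : Fin R → (Fin n → ℂ) → ℂ} (hf : Rep p T ε f)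
    (hLI : ∀ c : Fin R → ℂ, (∀ z ∈ T, ∑ l, c l * f l z = 0) → c = 0)
    {ε' : Fin C → ℝ} {h : Fin C → (Fin n → ℂ) → ℂ} (hh : Rep p U ε' h) :
    ∃ g : Fin R → (Fin n → ℂ) → ℂ, Rep p (T ∪ U) ε g ∧ ∀ z ∈ T, ∀ l, g l z = f l z := by
  classical
  obtain ⟨q, hq⟩ := hne
  obtain ⟨ρ, hρ, hball⟩ := Metric.isOpen_iff.mp (hT.inter hU) q hq
  have hρ5 : 0 < ρ / 5 := by positivity
  have hsub5 : ball q (ρ / 5) ⊆ ball q ρ := ball_subset_ball (by linarith)
  have hbT : ball q ρ ⊆ T := fun x hx => (hball hx).1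
  have hbU : ball q ρ ⊆ U := fun x hx => (hball hx).2
  have hker : ∀ z ∈ ball q (ρ / 5), ∀ w ∈ ball q (ρ / 5),
      ∑ l, (ε l : ℂ) * (f l z * star (f l w)) = ∑ l, (ε' l : ℂ) * (h l z * star (h l w)) := by
    intro z hz w hw
    refine polar_rep (fun l => (hf.2.1 l).mono hbT) (fun l => (hh.2.1 l).mono hbU) ?_ hz hw
    intro z hz
    rw [← hf.2.2 z (hbT hz), ← hh.2.2 z (hbU hz)]
  have hsum_an : ∀ (c : Fin R → ℂ), AnalyticOnNhd ℂ (fun z => ∑ l, c l * f l z) T := by
    intro c
    have : (fun z => ∑ l, c l * f l z) = ∑ l, fun z => c l * f l z := by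
      funext z
      rw [Finset.sum_apply]
    rw [this]
    exact Finset.analyticOnNhd_sum _ fun l _ => analyticOnNhd_const.mul (hf.2.1 l)
  -- linear independence on the small ball
  set u : Fin R → (ball q (ρ / 5)) → ℂ := fun l x => f l x with hu
  have hLI' : LinearIndependent ℂ u := by
    rw [Fintype.linearIndependent_iff]
    intro c hc
    have h1 : c = 0 := by
      apply hLI
      have h2 : (fun z => ∑ l, c l * f l z) =ᶠ[𝓝 q] 0 := by
        filter_upwards [ball_mem_nhds q hρ5] with z hz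
        have := congrFun hc ⟨z, hz⟩
        rw [Finset.sum_apply] at this
        exact this
      intro z hz
      exact (hsum_an c).eqOn_zero_of_preconnected_of_eventuallyEq_zero hTc.isPreconnected hq.1 h2 hz
    intro i
    rw [h1]
    rfl
  obtain ⟨w, hw⟩ := exists_minor u hLI'
  set A : Matrix (Fin R) (Fin R) ℂ := Matrix.of fun l i => f l (w i) with hA
  have hAdet : A.det ≠ 0 := hw
  have hAHdet : A.conjTranspose.det ≠ 0 := by
    rw [Matrix.det_conjTranspose]
    exact star_ne_zero.mpr hAdet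
  set b : Fin R → (Fin n → ℂ) → ℂ := fun i z => ∑ m, (ε' m : ℂ) * (h m z * star (h m (w i))) with hb
  set ft : Fin R → (Fin n → ℂ) → ℂ := fun l z => (ε l : ℂ) * ∑ i, A.conjTranspose⁻¹ l i * b i z with hft
  have hban : ∀ i, AnalyticOnNhd ℂ (b i) U := by
    intro i
    have : b i = ∑ m, fun z => (ε' m : ℂ) * (h m z * star (h m (w i))) := by
      funext z
      rw [Finset.sum_apply]
    rw [this]
    exact Finset.analyticOnNhd_sum _ fun m _ =>
      analyticOnNhd_const.mul ((hh.2.1 m).mul analyticOnNhd_const)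
  have hftan : ∀ l, AnalyticOnNhd ℂ (ft l) U := by
    intro l
    have h1 : (fun z => ∑ i, A.conjTranspose⁻¹ l i * b i z) =
        ∑ i, fun z => A.conjTranspose⁻¹ l i * b i z := by
      funext z
      rw [Finset.sum_apply]
    have h2 : AnalyticOnNhd ℂ (fun z => ∑ i, A.conjTranspose⁻¹ l i * b i z) U := by
      rw [h1]
      exact Finset.analyticOnNhd_sum _ fun i _ => analyticOnNhd_const.mul (hban i)
    exact analyticOnNhd_const.mul h2
  have heq5 : ∀ z ∈ ball q (ρ / 5), ∀ l, ft l z = f l z := by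
    intro z hz l
    set x : Fin R → ℂ := fun l => (ε l : ℂ) * f l z with hx
    have h1 : A.conjTranspose.mulVec x = fun i => b i z := by
      funext i
      rw [Matrix.mulVec, dotProduct]
      simp only [hb]
      rw [← hker z hz (w i) (w i).2]
      refine Finset.sum_congr rfl fun l _ => ?_
      rw [Matrix.conjTranspose_apply, hA, Matrix.of_apply, hx]
      ring
    have h2 : x = A.conjTranspose⁻¹.mulVec (fun i => b i z) := by
      rw [← h1, Matrix.mulVec_mulVec, Matrix.nonsing_inv_mul _ (isUnit_iff_ne_zero.mpr hAHdet),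
        Matrix.one_mulVec]
    have h3 := congrFun h2 l
    rw [Matrix.mulVec, dotProduct] at h3
    simp only [hft]
    rw [← h3, hx]
    simp only
    rw [← mul_assoc]
    have h4 : (ε l : ℂ) * (ε l : ℂ) = 1 := by
      rcases hf.1 l with h5 | h5 <;> rw [h5] <;> simp
    rw [h4, one_mul]
  have hconv : IsPreconnected (T ∩ U) := (hTc.inter hUc).isPreconnected
  have heq : ∀ l, ∀ z ∈ T ∩ U, ft l z = f l z := by
    intro l z hz
    refine AnalyticOnNhd.eqOn_of_preconnected_of_eventuallyEq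
      ((hftan l).mono inter_subset_right) ((hf.2.1 l).mono inter_subset_left) hconv hq ?_ hz
    filter_upwards [ball_mem_nhds q hρ5] with z hz
    exact heq5 z hz l
  have hpU : ∀ z ∈ U, p z = ∑ l, ε l * Complex.normSq (ft l z) := by
    have h1 : AnalyticOnNhd ℝ (fun z => ∑ l, ε l * Complex.normSq (ft l z)) U := by
      have : (fun z => ∑ l, ε l * Complex.normSq (ft l z)) =
          ∑ l, fun z => ε l * Complex.normSq (ft l z) := by
        funext z
        rw [Finset.sum_apply]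
      rw [this]
      exact Finset.analyticOnNhd_sum _ fun l _ => analyticOnNhd_const.mul (normSq_analytic (hftan l))
    intro z hz
    refine AnalyticOnNhd.eqOn_of_preconnected_of_eventuallyEq (hp.mono (subset_univ U)) h1
      hUc.isPreconnected hq.2 ?_ hz
    filter_upwards [ball_mem_nhds q hρ5] with z hz
    rw [hf.2.2 z (hbT (hsub5 hz))]
    refine Finset.sum_congr rfl fun l _ => ?_
    rw [heq5 z hz l]
  set g : Fin R → (Fin n → ℂ) → ℂ := fun l z => if z ∈ T then f l z else ft l z with hg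
  have hgT : ∀ z ∈ T, ∀ l, g l z = f l z := fun z hz l => if_pos hz
  have hgU : ∀ z ∈ U, ∀ l, g l z = ft l z := by
    intro z hz l
    by_cases hzT : z ∈ T
    · rw [hgT z hzT l, heq l z ⟨hzT, hz⟩]
    · exact if_neg hzT
  refine ⟨g, ⟨hf.1, ?_, ?_⟩, hgT⟩
  · rintro l z (hz | hz)
    · refine (hf.2.1 l z hz).congr ?_
      filter_upwards [hT.mem_nhds hz] with x hx
      exact (hgT x hx l).symm
    · refine (hftan l z hz).congr ?_
      filter_upwards [hU.mem_nhds hz] with x hx
      exact (hgU x hx l).symm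
  · rintro z (hz | hz)
    · rw [hf.2.2 z hz]
      exact Finset.sum_congr rfl fun l _ => by rw [hgT z hz l]
    · rw [hpU z hz]
      exact Finset.sum_congr rfl fun l _ => by rw [hgU z hz l]

end Pool.Agent.Q45.HR
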