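import Pool.Agent.Q45.HR.Loc
import Pool.Agent.Q45.HR.Ext

/-! Assembling the global representation. -/

set_option autoImplicit false

open Set Filter Metric Topology ComplexConjugate

namespace Pool.Agent.Q45.HR

variable {n : ℕ}

theorem minimal_rep {p : (Fin n → ℂ) → ℝ} {C : ℕ}
    (h : ∃ (R : ℕ) (ρ : ℝ) (ε : Fin R → ℝ) (f : Fin R → (Fin n → ℂ) → ℂ), R ≤ C ∧ 0 < ρ ∧
      Rep p (ball 0 ρ) ε f) :
    ∃ (R : ℕ) (ρ : ℝ) (ε : Fin R → ℝ) (f : Fin R → (Fin n → ℂ) → ℂ), R ≤ C ∧ 0 < ρ ∧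
      Rep p (ball 0 ρ) ε f ∧ ∀ ρ', 0 < ρ' → ρ' ≤ ρ → ∀ c : Fin R → ℂ,
        (∀ z ∈ ball 0 ρ', ∑ l, c l * f l z = 0) → c = 0 := by
  classical
  set P : ℕ → Prop := fun R => ∃ (ρ : ℝ) (ε : Fin R → ℝ) (f : Fin R → (Fin n → ℂ) → ℂ), 0 < ρ ∧
      Rep p (ball 0 ρ) ε f with hP
  obtain ⟨R₁, ρ₁, ε₁, f₁, hR₁, hρ₁, hf₁⟩ := h
  have hex : ∃ R, P R := ⟨R₁, ρ₁, ε₁, f₁, hρ₁, hf₁⟩
  obtain ⟨ρ, ε, f, hρ, hf⟩ := Nat.find_spec hex
  have hle : Nat.find hex ≤ R₁ := Nat.find_min' hex ⟨ρ₁, ε₁, f₁, hρ₁, hf₁⟩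
  have hmin : ∀ R' < Nat.find hex, ¬ P R' := fun R' hR' => Nat.find_min hex hR'
  generalize Nat.find hex = R at ε f hf hle hmin
  refine ⟨R, ρ, ε, f, hle.trans hR₁, hρ, hf, ?_⟩
  intro ρ' hρ' hρρ c hc
  by_contra hne
  obtain ⟨l₀, hl₀⟩ : ∃ l₀, c l₀ ≠ 0 := by
    by_contra hcon
    push Not at hcon
    exact hne (funext hcon)
  obtain ⟨R', rfl⟩ : ∃ R', R = R' + 1 := Nat.exists_eq_succ_of_ne_zero (by
    rintro rfl
    exact l₀.elim0)
  apply hmin R' (Nat.lt_succ_self _)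
  have hf' := hf.mono (ball_subset_ball hρρ)
  obtain ⟨ε', f', h'⟩ := reduce hf' (fun i => f (l₀.succAbove i)) (fun i => hf'.2.1 _)
    (fun l i => if l = l₀ then -(c (l₀.succAbove i)) / c l₀ else if l = l₀.succAbove i then 1 else 0)
    (by
      intro l z hz
      by_cases hl : l = l₀
      · subst hl
        have h1 := hc z hz
        rw [Fin.sum_univ_succAbove _ l] at h1
        simp only [if_true]
        have h2 : ∑ i, -(c (l.succAbove i)) / c l * f (l.succAbove i) z =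
            -(∑ i, c (l.succAbove i) * f (l.succAbove i) z) / c l := by
          rw [neg_div, Finset.sum_div, ← Finset.sum_neg_distrib]
          refine Finset.sum_congr rfl fun i _ => ?_
          ring
        rw [h2, eq_div_iff hl₀]
        linear_combination h1
      · obtain ⟨i₀, rfl⟩ := Fin.exists_succAbove_eq hl
        rw [Finset.sum_eq_single i₀]
        · rw [if_neg hl, if_pos rfl, one_mul]
        · intro i _ hi
          rw [if_neg hl, if_neg (fun h => hi (Fin.succAbove_right_injective h).symm), zero_mul]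
        · intro h
          exact absurd (Finset.mem_univ _) h)
  exact ⟨ρ', ε', f', hρ', h'⟩

theorem seg_cont {p : (Fin n → ℂ) → ℝ} (hp : AnalyticOnNhd ℝ p univ) {R : ℕ} {ε : Fin R → ℝ}
    {f : Fin R → (Fin n → ℂ) → ℂ} {ρ : ℝ} (hρ : 0 < ρ) (hf : Rep p (ball 0 ρ) ε f)
    (hLI : ∀ ρ', 0 < ρ' → ρ' ≤ ρ → ∀ c : Fin R → ℂ, (∀ z ∈ ball 0 ρ', ∑ l, c l * f l z = 0) → c = 0)
    (hloc : ∀ q, ∃ (C : ℕ) (δ : ℝ) (ε' : Fin C → ℝ) (h : Fin C → (Fin n → ℂ) → ℂ), 0 < δ ∧
      Rep p (ball q δ) ε' h) (z : Fin n → ℂ) :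
    ∃ (δ : ℝ) (g : Fin R → (Fin n → ℂ) → ℂ), 0 < δ ∧ δ ≤ ρ ∧
      Rep p (thickening δ (segment ℝ 0 z)) ε g ∧ ∀ x ∈ ball 0 δ, ∀ l, g l x = f l x := by
  choose C δ' ε' h hδ' hrep using hloc
  have hcomp : IsCompact (segment ℝ 0 z) := by
    rw [segment_eq_image]
    exact isCompact_Icc.image (by fun_prop)
  obtain ⟨δ₀, hδ₀, hleb⟩ := lebesgue_number_lemma_of_metric hcomp
    (c := fun q => ball q (δ' q)) (fun q => isOpen_ball)
    (fun x _ => mem_iUnion.mpr ⟨x, mem_ball_self (hδ' x)⟩)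
  set δ := min (δ₀ / 2) ρ with hδ
  have hδpos : 0 < δ := lt_min (by positivity) hρ
  have hδρ : δ ≤ ρ := min_le_right _ _
  have hδ2 : 2 * δ ≤ δ₀ := by
    have := min_le_left (δ₀ / 2) ρ
    linarith
  obtain ⟨M, hM⟩ := exists_nat_gt (‖z‖ / δ)
  have hMpos : (0 : ℝ) < M := lt_of_le_of_lt (by positivity) hM
  have hstep : ‖z‖ / M ≤ δ := by
    rw [div_lt_iff₀ hδpos] at hM
    rw [div_le_iff₀ hMpos]
    linarith
  have hind : ∀ i : ℕ, i ≤ M → ∃ g : Fin R → (Fin n → ℂ) → ℂ,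
      Rep p (thickening δ (segment ℝ 0 ((i / M : ℝ) • z))) ε g ∧
        ∀ x ∈ ball 0 δ, ∀ l, g l x = f l x := by
    intro i
    induction i with
    | zero =>
      intro _
      refine ⟨f, ?_, fun _ _ _ => rfl⟩
      rw [Nat.cast_zero, zero_div, zero_smul, segment_same, thickening_singleton]
      exact hf.mono (ball_subset_ball hδρ)
    | succ i ih =>
      intro hi
      obtain ⟨g, hg, hgf⟩ := ih (by omega)
      have hi' : (i : ℝ) / M ≤ 1 := by
        rw [div_le_one hMpos]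
        exact_mod_cast (by omega : i ≤ M)
      have hi0 : (0 : ℝ) ≤ i / M := by positivity
      set q : Fin n → ℂ := (i / M : ℝ) • z with hq
      have hqseg : q ∈ segment ℝ 0 z := by
        rw [segment_eq_image]
        exact ⟨i / M, ⟨hi0, hi'⟩, by simp [hq]⟩
      obtain ⟨q', hq'⟩ := hleb q hqseg
      have hU : Rep p (ball q (2 * δ)) (ε' q') (h q') :=
        (hrep q').mono ((ball_subset_ball hδ2).trans hq')
      have hqT : q ∈ thickening δ (segment ℝ 0 q) :=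
        self_subset_thickening hδpos _ (right_mem_segment ℝ 0 q)
      have h0T : ball 0 δ ⊆ thickening δ (segment ℝ 0 q) := by
        intro x hx
        exact mem_thickening_iff.mpr ⟨0, left_mem_segment ℝ 0 q, hx⟩
      obtain ⟨g', hg', hgg⟩ := ext_step hp isOpen_thickening ((convex_segment 0 q).thickening δ)
        isOpen_ball (convex_ball q (2 * δ)) ⟨q, hqT, mem_ball_self (by linarith)⟩ hg (by
          intro c hc
          refine hLI δ hδpos hδρ c fun x hx => ?_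
          rw [← hc x (h0T hx)]
          exact Finset.sum_congr rfl fun l _ => by rw [hgf x hx l]) hU
      refine ⟨g', hg'.mono ?_, fun x hx l => by rw [hgg x (h0T hx) l, hgf x hx l]⟩
      intro x hx
      rw [mem_thickening_iff] at hx
      obtain ⟨y, hy, hxy⟩ := hx
      rw [segment_eq_image] at hy
      obtain ⟨t, ⟨ht0, ht1⟩, hty⟩ := hy
      simp only [smul_zero, zero_add] at hty
      rw [smul_smul] at hty
      set s : ℝ := t * (((i + 1 : ℕ) : ℝ) / M) with hs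
      have hs0 : 0 ≤ s := by positivity
      have hs1 : s ≤ (i + 1) / M := by
        rw [hs]
        push_cast
        have h1 : (0 : ℝ) ≤ (i + 1) / M := by positivity
        nlinarith
      by_cases hcase : s ≤ i / M
      · left
        rw [mem_thickening_iff]
        refine ⟨y, ?_, hxy⟩
        rw [segment_eq_image]
        by_cases hi00 : (i : ℝ) / M = 0
        · have : s = 0 := le_antisymm (by rw [← hi00]; exact hcase) hs0
          refine ⟨0, ⟨le_rfl, zero_le_one⟩, ?_⟩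
          rw [← hty, this]
          simp
        · have hpos : (0 : ℝ) < i / M := lt_of_le_of_ne hi0 (Ne.symm hi00)
          refine ⟨s / (i / M), ⟨by positivity, by rw [div_le_one hpos]; exact hcase⟩, ?_⟩
          simp only [smul_zero, zero_add, hq]
          rw [smul_smul, div_mul_cancel₀ _ hi00, hty]
      · right
        push Not at hcase
        rw [mem_ball]
        have h1 : dist y q ≤ δ := by
          rw [← hty, hq, dist_eq_norm, ← sub_smul, norm_smul, Real.norm_eq_abs,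
            abs_of_nonneg (by linarith)]
          refine le_trans ?_ hstep
          have h3 : (i + 1 : ℝ) / M = i / M + (M : ℝ)⁻¹ := by
            field_simp
          have h4 : s - i / M ≤ (M : ℝ)⁻¹ := by linarith
          calc (s - i / M) * ‖z‖ ≤ (M : ℝ)⁻¹ * ‖z‖ := mul_le_mul_of_nonneg_right h4 (norm_nonneg z)
            _ = ‖z‖ / M := by rw [div_eq_inv_mul]
        have h2 := dist_triangle x y q
        linarith
  obtain ⟨g, hg, hgf⟩ := hind M le_rfl
  refine ⟨δ, g, hδpos, hδρ, ?_, hgf⟩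
  rwa [div_self hMpos.ne', one_smul] at hg

theorem global {p : (Fin n → ℂ) → ℝ} (hp : AnalyticOnNhd ℝ p univ) {R : ℕ} {ε : Fin R → ℝ}
    {f : Fin R → (Fin n → ℂ) → ℂ} {ρ : ℝ} (hρ : 0 < ρ) (hf : Rep p (ball 0 ρ) ε f)
    (hLI : ∀ ρ', 0 < ρ' → ρ' ≤ ρ → ∀ c : Fin R → ℂ, (∀ z ∈ ball 0 ρ', ∑ l, c l * f l z = 0) → c = 0)
    (hloc : ∀ q, ∃ (C : ℕ) (δ : ℝ) (ε' : Fin C → ℝ) (h : Fin C → (Fin n → ℂ) → ℂ), 0 < δ ∧
      Rep p (ball q δ) ε' h) :
    ∃ F : Fin R → (Fin n → ℂ) → ℂ, (∀ l, Differentiable ℂ (F l)) ∧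
      ∀ z, p z = ∑ l, ε l * Complex.normSq (F l z) := by
  choose δ g hδ hδρ hrep hgf using seg_cont hp hρ hf hLI hloc
  have hmem : ∀ z, z ∈ thickening (δ z) (segment ℝ 0 z) := fun z =>
    self_subset_thickening (hδ z) _ (right_mem_segment ℝ 0 z)
  have h0mem : ∀ z, (0 : Fin n → ℂ) ∈ thickening (δ z) (segment ℝ 0 z) := fun z =>
    self_subset_thickening (hδ z) _ (left_mem_segment ℝ 0 z)
  have key : ∀ z z', z' ∈ thickening (δ z) (segment ℝ 0 z) → ∀ l, g z' l z' = g z l z' := by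
    intro z z' hz' l
    refine AnalyticOnNhd.eqOn_of_preconnected_of_eventuallyEq (U := thickening (δ z) (segment ℝ 0 z) ∩
      thickening (δ z') (segment ℝ 0 z')) (((hrep z').2.1 l).mono inter_subset_right)
      (((hrep z).2.1 l).mono inter_subset_left)
      (((convex_segment 0 z).thickening _).inter ((convex_segment 0 z').thickening _)).isPreconnected
      ⟨h0mem z, h0mem z'⟩ ?_ ⟨hz', hmem z'⟩
    filter_upwards [ball_mem_nhds (0 : Fin n → ℂ) (hδ z), ball_mem_nhds (0 : Fin n → ℂ) (hδ z')]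
      with x hx hx'
    rw [hgf z x hx l, hgf z' x hx' l]
  refine ⟨fun l z => g z l z, ?_, ?_⟩
  · intro l z
    have h1 : DifferentiableAt ℂ (g z l) z := ((hrep z).2.1 l z (hmem z)).differentiableAt
    refine h1.congr_of_eventuallyEq ?_
    filter_upwards [isOpen_thickening.mem_nhds (hmem z)] with x hx
    exact key z x hx l
  · intro z
    exact (hrep z).2.2 z (hmem z)

theorem pad {p : (Fin n → ℂ) → ℝ} {R c : ℕ} (hRc : R ≤ c) {ε : Fin R → ℝ}
    {F : Fin R → (Fin n → ℂ) → ℂ} (hε : ∀ l, ε l = 1 ∨ ε l = -1) (hF : ∀ l, Differentiable ℂ (F l))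
    (hp : ∀ z, p z = ∑ l, ε l * Complex.normSq (F l z)) :
    ∃ (ε : Fin c → ℝ) (f : Fin c → (Fin n → ℂ) → ℂ),
      (∀ j, ε j = 1 ∨ ε j = -1) ∧ (∀ j, Differentiable ℂ (f j)) ∧
      ∀ z, p z = ∑ j, ε j * Complex.normSq (f j z) := by
  obtain ⟨d, rfl⟩ := Nat.exists_eq_add_of_le hRc
  refine ⟨Fin.append ε (fun _ => 1), Fin.append F (fun _ _ => 0), ?_, ?_, ?_⟩
  · intro j
    refine Fin.addCases (fun i => ?_) (fun i => ?_) j
    · rw [Fin.append_left]
      exact hε i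
    · rw [Fin.append_right]
      exact Or.inl rfl
  · intro j
    refine Fin.addCases (fun i => ?_) (fun i => ?_) j
    · rw [Fin.append_left]
      exact hF i
    · rw [Fin.append_right]
      exact differentiable_const _
  · intro z
    rw [Fin.sum_univ_add, hp z]
    simp only [Fin.append_left, Fin.append_right, map_zero, mul_zero, Finset.sum_const_zero,
      add_zero]

theorem small_of_inj {m k : ℕ} {p : (Fin (m + 1) → ℂ) → ℝ}
    (h : ∀ (a : Fin (m + 1) → ℂ) (L : (Fin m → ℂ) →ₗ[ℂ] (Fin (m + 1) → ℂ)), Function.Injective L →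
      ∃ (ε : Fin k → ℝ) (g : Fin k → (Fin m → ℂ) → ℂ),
        (∀ j, ε j = 1 ∨ ε j = -1) ∧ (∀ j, Differentiable ℂ (g j)) ∧
        ∀ x, p (a + L x) = ∑ j, ε j * Complex.normSq (g j x)) : Small m k p := by
  intro a L
  have hlt : LinearMap.range L < ⊤ := by
    refine lt_top_iff_ne_top.mpr fun htop => ?_
    have h1 := LinearMap.finrank_range_le L
    rw [htop, finrank_top, Module.finrank_fin_fun, Module.finrank_fin_fun] at h1
    omega
  obtain ⟨φ, hφ, hle⟩ := Submodule.exists_le_ker_of_lt_top _ hlt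
  have hfr : Module.finrank ℂ (LinearMap.ker φ) = m := by
    have h1 := Module.Dual.finrank_ker_add_one_of_ne_zero (f := φ) hφ
    rw [Module.finrank_fin_fun] at h1
    omega
  have e : (Fin m → ℂ) ≃ₗ[ℂ] LinearMap.ker φ := LinearEquiv.ofFinrankEq _ _ (by
    rw [hfr, Module.finrank_fin_fun])
  obtain ⟨ε, g, hε, hg, hgp⟩ := h a ((LinearMap.ker φ).subtype ∘ₗ e.toLinearMap) (by
    intro x y hxy
    exact e.injective (Subtype.ext hxy))
  set M : (Fin m → ℂ) →ₗ[ℂ] (Fin m → ℂ) := e.symm.toLinearMap ∘ₗ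
    (LinearMap.codRestrict (LinearMap.ker φ) L fun x => hle (LinearMap.mem_range_self L x)) with hM
  have hLM : ∀ x, ((LinearMap.ker φ).subtype ∘ₗ e.toLinearMap) (M x) = L x := by
    intro x
    simp [hM]
  refine ⟨ε, fun j x => g j (M x), ?_, ?_⟩
  · intro j
    exact (hg j).comp (LinearMap.toContinuousLinearMap M).differentiable
  · intro x
    rw [← hgp (M x), hLM]

theorem main_thm {m k : ℕ} (i0 : Fin m) {p : (Fin (m + 1) → ℂ) → ℝ} (hp : AnalyticOnNhd ℝ p univ)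
    (h : ∀ (a : Fin (m + 1) → ℂ) (L : (Fin m → ℂ) →ₗ[ℂ] (Fin (m + 1) → ℂ)), Function.Injective L →
      ∃ (ε : Fin k → ℝ) (g : Fin k → (Fin m → ℂ) → ℂ),
        (∀ j, ε j = 1 ∨ ε j = -1) ∧ (∀ j, Differentiable ℂ (g j)) ∧
        ∀ x, p (a + L x) = ∑ j, ε j * Complex.normSq (g j x)) :
    ∃ (ε : Fin (2 * ((k * k) * (k * k))) → ℝ)
      (f : Fin (2 * ((k * k) * (k * k))) → (Fin (m + 1) → ℂ) → ℂ),
        (∀ j, ε j = 1 ∨ ε j = -1) ∧ (∀ j, Differentiable ℂ (f j)) ∧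
        ∀ z, p z = ∑ j, ε j * Complex.normSq (f j z) := by
  have hs : Small m k p := small_of_inj h
  have hloc : ∀ q, ∃ (R : ℕ) (ρ : ℝ) (ε : Fin R → ℝ) (f : Fin R → (Fin (m + 1) → ℂ) → ℂ),
      R ≤ 2 * ((k * k) * (k * k)) ∧ 0 < ρ ∧ Rep p (ball q ρ) ε f := by
    intro q
    obtain ⟨R, ρ, ε, f, h1, h2, h3, h4, h5⟩ := local_rep (hp q (mem_univ _)) hs i0
    exact ⟨R, ρ, ε, f, h1, h2, h3, h4, h5⟩
  obtain ⟨R, ρ, ε, f, hR, hρ, hf, hLI⟩ := minimal_rep (hloc 0)
  obtain ⟨F, hF, hFp⟩ := global hp hρ hf hLI (by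
    intro q
    obtain ⟨R, ρ, ε, f, h1, h2, h3⟩ := hloc q
    exact ⟨R, ρ, ε, f, h2, h3⟩)
  exact pad hR hf.1 hF hFp

end Pool.Agent.Q45.HR
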