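import Pool.Agent.Q45.HR.Slices

/-! From Hermitian forms to sums of signed squares. -/

set_option autoImplicit false

open Set Filter Metric Topology ComplexConjugate

namespace Pool.Agent.Q45.HR

theorem herm_diag {R : ℕ} {H : Matrix (Fin R) (Fin R) ℂ} (hH : H.IsHermitian) :
    ∃ (ε : Fin R → ℝ) (U : Matrix (Fin R) (Fin R) ℂ), (∀ l, ε l = 1 ∨ ε l = -1) ∧
      ∀ v : Fin R → ℂ, ∑ i, ∑ j, H i j * (v i * conj (v j)) =
        ((∑ l, ε l * Complex.normSq (∑ i, U l i * v i) : ℝ) : ℂ) := by
  classical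
  set lam := hH.eigenvalues with hlam
  set V : Matrix (Fin R) (Fin R) ℂ := (hH.eigenvectorUnitary : Matrix (Fin R) (Fin R) ℂ) with hV
  have hspec : ∀ i j, H i j = ∑ l, V i l * lam l * conj (V j l) := by
    intro i j
    have h1 := hH.spectral_theorem
    have h2 := congrFun (congrFun h1 i) j
    rw [h2, Unitary.conjStarAlgAut_apply]
    rw [Matrix.mul_apply]
    refine Finset.sum_congr rfl fun l _ => ?_
    rw [Matrix.mul_diagonal]
    rfl
  refine ⟨fun l => if 0 ≤ lam l then 1 else -1, Matrix.of fun l i => (Real.sqrt |lam l| : ℂ) * V i l,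
    ?_, ?_⟩
  · intro l
    dsimp only
    split_ifs
    · left; rfl
    · right; rfl
  · intro v
    have h3 : ∀ l, (((if 0 ≤ lam l then (1 : ℝ) else -1) *
        Complex.normSq (∑ i, (Real.sqrt |lam l| : ℂ) * V i l * v i) : ℝ) : ℂ) =
        lam l * ((∑ i, V i l * v i) * conj (∑ j, V j l * v j)) := by
      intro l
      have h4 : ∑ i, (Real.sqrt |lam l| : ℂ) * V i l * v i =
          (Real.sqrt |lam l| : ℂ) * ∑ i, V i l * v i := by
        rw [Finset.mul_sum]
        exact Finset.sum_congr rfl fun i _ => by ring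
      rw [h4, Complex.normSq_mul, Complex.normSq_ofReal, Real.mul_self_sqrt (abs_nonneg _),
        Complex.mul_conj]
      split_ifs with h5
      · rw [abs_of_nonneg h5]; push_cast; ring
      · rw [abs_of_neg (not_le.mp h5)]; push_cast; ring
    simp only [Matrix.of_apply]
    rw [Complex.ofReal_sum]
    simp only [h3]
    have h5 : ∀ i j, H i j * (v i * conj (v j)) =
        ∑ l, (lam l : ℂ) * ((V i l * v i) * conj (V j l * v j)) := by
      intro i j
      rw [hspec, Finset.sum_mul]
      refine Finset.sum_congr rfl fun l _ => ?_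
      rw [map_mul]
      ring
    simp only [h5]
    have h6 : ∀ i : Fin R, ∑ j, ∑ l, (lam l : ℂ) * ((V i l * v i) * conj (V j l * v j)) =
        ∑ l, ∑ j, (lam l : ℂ) * ((V i l * v i) * conj (V j l * v j)) := fun i => Finset.sum_comm
    simp only [h6]
    rw [Finset.sum_comm]
    refine Finset.sum_congr rfl fun l _ => ?_
    rw [map_sum, Finset.sum_mul_sum, Finset.mul_sum]
    refine Finset.sum_congr rfl fun i _ => ?_
    rw [Finset.mul_sum]

/-- A real function given by a sesquilinear expression is a signed sum of squares. -/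
theorem signed {D : Type*} {R : ℕ} (M : Matrix (Fin R) (Fin R) ℂ) (f : Fin R → D → ℂ) (p : D → ℝ)
    (S : Set D) (h : ∀ z ∈ S, (p z : ℂ) = ∑ i, ∑ j, M i j * (f i z * conj (f j z))) :
    ∃ (ε : Fin R → ℝ) (U : Matrix (Fin R) (Fin R) ℂ), (∀ l, ε l = 1 ∨ ε l = -1) ∧
      ∀ z ∈ S, p z = ∑ l, ε l * Complex.normSq (∑ i, U l i * f i z) := by
  set H : Matrix (Fin R) (Fin R) ℂ := Matrix.of fun i j => (M i j + conj (M j i)) / 2 with hHdef
  have hH : H.IsHermitian := by
    ext i j
    rw [Matrix.conjTranspose_apply, hHdef, Matrix.of_apply, Matrix.of_apply]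
    have h0 : ∀ a b : ℂ, star ((a + conj b) / 2) = (conj a + b) / 2 := by
      intro a b
      have h1 : star ((a + conj b) / 2) = conj ((a + conj b) / 2) := rfl
      rw [h1, map_div₀, map_add, Complex.conj_conj, map_ofNat]
    rw [h0]
    ring
  obtain ⟨ε, U, hε, hU⟩ := herm_diag hH
  refine ⟨ε, U, hε, fun z hz => ?_⟩
  have h1 := h z hz
  have h2 : (p z : ℂ) = ∑ i, ∑ j, conj (M j i) * (f i z * conj (f j z)) := by
    have h3 := congrArg conj h1
    rw [Complex.conj_ofReal] at h3
    rw [h3, map_sum, Finset.sum_comm]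
    rw [← Finset.sum_comm]
    simp only [map_sum, map_mul, Complex.conj_conj]
    rw [Finset.sum_comm]
    refine Finset.sum_congr rfl fun i _ => Finset.sum_congr rfl fun j _ => ?_
    ring
  have h3 : (p z : ℂ) = ∑ i, ∑ j, H i j * (f i z * conj (f j z)) := by
    have h4 : (p z : ℂ) = (p z + p z) / 2 := by ring
    rw [h4]
    nth_rewrite 1 [h1]
    rw [h2, ← Finset.sum_add_distrib, Finset.sum_div]
    refine Finset.sum_congr rfl fun i _ => ?_
    rw [← Finset.sum_add_distrib, Finset.sum_div]
    refine Finset.sum_congr rfl fun j _ => ?_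
    rw [hHdef, Matrix.of_apply]
    ring
  have h4 := hU (fun i => f i z)
  rw [← h3] at h4
  exact_mod_cast h4

end Pool.Agent.Q45.HR
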