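import Mathlib

/-! Linear algebra: minors of families of functions. -/

set_option autoImplicit false

open Set Filter Metric Topology

namespace Pool.Agent.Q45.HR

/-- Linearly independent functions have a nonzero minor. -/
theorem exists_minor {S : Type*} {r : ℕ} (φ : Fin r → S → ℂ) (h : LinearIndependent ℂ φ) :
    ∃ z : Fin r → S, (Matrix.of fun i j => φ i (z j)).det ≠ 0 := by
  classical
  set v : S → (Fin r → ℂ) := fun s i => φ i s with hv
  have hspan : Submodule.span ℂ (range v) = ⊤ := by
    by_contra hne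
    obtain ⟨f, hf0, hf⟩ := Submodule.exists_le_ker_of_lt_top _ (lt_top_iff_ne_top.mpr hne)
    apply hf0
    have h1 : ∑ i, f (Pi.single i 1) • φ i = 0 := by
      funext s
      have h2 : f (v s) = 0 := hf (Submodule.subset_span ⟨s, rfl⟩)
      have h3 : v s = ∑ i, φ i s • (Pi.single i 1 : Fin r → ℂ) := by
        funext j
        simp [hv, Finset.sum_apply, Pi.single_apply]
      rw [h3, map_sum] at h2
      simp only [map_smul, smul_eq_mul] at h2
      simp only [Finset.sum_apply, Pi.smul_apply, smul_eq_mul, Pi.zero_apply]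
      rw [← h2]
      exact Finset.sum_congr rfl fun i _ => mul_comm _ _
    have h2 := Fintype.linearIndependent_iff.mp h _ h1
    refine LinearMap.pi_ext' fun i => ?_
    ext
    simpa using h2 i
  obtain ⟨b, hb1, hb2, hb3⟩ := exists_linearIndependent ℂ (range v)
  rw [hspan] at hb2
  have hb2' : ⊤ ≤ Submodule.span ℂ (range ((↑) : b → (Fin r → ℂ))) := by
    rw [Subtype.range_coe, hb2]
  let B := Module.Basis.mk hb3 hb2'
  haveI : Fintype b := FiniteDimensional.fintypeBasisIndex B
  have hcard : Fintype.card b = r := by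
    have := Module.finrank_eq_card_basis B
    rw [Module.finrank_fin_fun] at this
    exact this.symm
  let e : b ≃ Fin r := Fintype.equivFinOfCardEq hcard
  have hz : ∀ j : Fin r, ∃ s, v s = (e.symm j : Fin r → ℂ) := fun j => hb1 (e.symm j).2
  choose z hz using hz
  refine ⟨z, ?_⟩
  have hLI : LinearIndependent ℂ (fun j : Fin r => v (z j)) := by
    have : (fun j : Fin r => v (z j)) = (fun x : b => (x : Fin r → ℂ)) ∘ e.symm := by
      funext j
      exact hz j
    rw [this]
    exact hb3.comp _ e.symm.injective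
  have h4 : IsUnit (Matrix.of fun j i => v (z j) i) :=
    Matrix.linearIndependent_rows_iff_isUnit.mp hLI
  rw [Matrix.isUnit_iff_isUnit_det] at h4
  have h5 : (Matrix.of fun i j => φ i (z j)) = (Matrix.of fun j i => v (z j) i).transpose := by
    ext i j
    rfl
  rw [h5, Matrix.det_transpose]
  exact h4.ne_zero

/-- A family with a nonzero minor is linearly independent. -/
theorem linInd_of_minor {S : Type*} {r : ℕ} (φ : Fin r → S → ℂ) (z : Fin r → S)
    (h : (Matrix.of fun i j => φ i (z j)).det ≠ 0) : LinearIndependent ℂ φ := by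
  rw [Fintype.linearIndependent_iff]
  intro c hc
  have h1 : Matrix.vecMul c (Matrix.of fun i j => φ i (z j)) = 0 := by
    funext j
    have := congrFun hc (z j)
    simp only [Finset.sum_apply, Pi.smul_apply, smul_eq_mul, Pi.zero_apply] at this
    rw [Matrix.vecMul, dotProduct]
    exact this
  have h2 := Matrix.eq_zero_of_vecMul_eq_zero h h1
  intro i
  rw [h2]
  rfl

/-- If all `(d+1)`-minors vanish then the rank is at most `d`. -/
theorem finrank_le_of_minors {S : Type*} {N d : ℕ} (φ : Fin N → S → ℂ)
    (h : ∀ (i : Fin (d + 1) → Fin N) (s : Fin (d + 1) → S),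
      (Matrix.of fun a b => φ (i a) (s b)).det = 0) :
    Module.finrank ℂ (Submodule.span ℂ (range fun s => fun i => φ i s)) ≤ d := by
  classical
  by_contra hc
  push Not at hc
  set v : S → (Fin N → ℂ) := fun s i => φ i s with hv
  obtain ⟨b, hb1, hb2, hb3⟩ := exists_linearIndependent ℂ (range v)
  haveI : Fintype b := hb3.setFinite.fintype
  have hcard : d + 1 ≤ Fintype.card b := by
    rw [← hb2] at hc
    have := finrank_span_set_eq_card hb3
    rw [Set.toFinset_card] at this
    omega
  obtain ⟨e⟩ := Function.Embedding.nonempty_of_card_le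
    (α := Fin (d + 1)) (β := b) (by simpa using hcard)
  have hz : ∀ j : Fin (d + 1), ∃ s, v s = (e j : Fin N → ℂ) := fun j => hb1 (e j).2
  choose z hz using hz
  have hLI : LinearIndependent ℂ (fun j : Fin (d + 1) => v (z j)) := by
    have : (fun j : Fin (d + 1) => v (z j)) = (fun x : b => (x : Fin N → ℂ)) ∘ e := by
      funext j
      exact hz j
    rw [this]
    exact hb3.comp _ e.injective
  obtain ⟨i, hi⟩ := exists_minor (fun j : Fin (d + 1) => v (z j)) hLI
  apply hi
  have h5 : (Matrix.of fun a b => v (z a) (i b)) =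
      (Matrix.of fun a b => φ (i a) (z b)).transpose := by
    ext a b
    rfl
  rw [h5, Matrix.det_transpose]
  exact h i z

/-- Functions on a product. -/
theorem prod_rank {E : Type*} [NormedAddCommGroup E] [NormedSpace ℂ E] {X : Set E}
    (hX : IsOpen X) (hXc : IsPreconnected X) (hXne : X.Nonempty) {Y : Type*} {d e N : ℕ}
    (φ : Fin N → E → Y → ℂ)
    (ha : ∀ i y, AnalyticOnNhd ℂ (fun x => φ i x y) X)
    (h1 : ∀ x ∈ X, Module.finrank ℂ (Submodule.span ℂ (range fun y => fun i => φ i x y)) ≤ d)
    (h2 : ∀ y, Module.finrank ℂ (Submodule.span ℂ ((fun x => fun i => φ i x y) '' X)) ≤ e)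
    (hLI : ∀ c : Fin N → ℂ, (∀ x ∈ X, ∀ y, ∑ i, c i * φ i x y = 0) → c = 0) : N ≤ d * e := by
  classical
  -- a point of maximal rank
  set U : E → Submodule ℂ (Fin N → ℂ) := fun x => Submodule.span ℂ (range fun y => fun i => φ i x y)
    with hU
  obtain ⟨x0, hx0, hmax⟩ : ∃ x0 ∈ X, ∀ x ∈ X, Module.finrank ℂ (U x) ≤ Module.finrank ℂ (U x0) := by
    have hfin : (((fun x => Module.finrank ℂ (U x)) '' X)).Finite := by
      refine (Set.finite_Iic d).subset ?_
      rintro _ ⟨x, hx, rfl⟩
      exact h1 x hx
    obtain ⟨a, ⟨x0, hx0, rfl⟩, ha⟩ := Set.exists_max_image _ id hfin (hXne.image _)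
    exact ⟨x0, hx0, fun x hx => ha _ ⟨x, hx, rfl⟩⟩
  set r := Module.finrank ℂ (U x0) with hr
  have hrd : r ≤ d := h1 x0 hx0
  -- a basis
  obtain ⟨y, hy⟩ : ∃ y : Fin r → Y, LinearIndependent ℂ (fun j => fun i => φ i x0 (y j)) := by
    set v : Y → (Fin N → ℂ) := fun y i => φ i x0 y with hv
    obtain ⟨b, hb1, hb2, hb3⟩ := exists_linearIndependent ℂ (range v)
    haveI : Fintype b := hb3.setFinite.fintype
    have hcard : Fintype.card b = r := by
      have := finrank_span_set_eq_card hb3
      rw [Set.toFinset_card, hb2] at this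
      rw [hr, ← this]
    let e : b ≃ Fin r := Fintype.equivFinOfCardEq hcard
    have hz : ∀ j : Fin r, ∃ s, v s = (e.symm j : Fin N → ℂ) := fun j => hb1 (e.symm j).2
    choose z hz using hz
    refine ⟨z, ?_⟩
    have : (fun j : Fin r => v (z j)) = (fun x : b => (x : Fin N → ℂ)) ∘ e.symm := by
      funext j
      exact hz j
    show LinearIndependent ℂ (fun j : Fin r => v (z j))
    rw [this]
    exact hb3.comp _ e.symm.injective
  -- it stays a basis
  have hcont : ContinuousAt (fun x => fun (j : Fin r) => fun i => φ i x (y j)) x0 := by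
    rw [continuousAt_pi]
    intro j
    rw [continuousAt_pi]
    intro i
    exact (ha i (y j) x0 hx0).continuousAt
  have hopen : ∀ᶠ x in 𝓝 x0, LinearIndependent ℂ (fun (j : Fin r) => fun i => φ i x (y j)) :=
    hcont.eventually (isOpen_setOf_linearIndependent.mem_nhds hy)
  have hkey : ∀ᶠ x in 𝓝 x0, ∀ y', (fun i => φ i x y') ∈
      Submodule.span ℂ (range fun (j : Fin r) => fun i => φ i x (y j)) := by
    filter_upwards [hopen, hX.mem_nhds hx0] with x hx hxX y'
    have h3 : Submodule.span ℂ (range fun (j : Fin r) => fun i => φ i x (y j)) = U x := by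
      refine Submodule.eq_of_le_of_finrank_le ?_ ?_
      · refine Submodule.span_mono ?_
        rintro _ ⟨j, rfl⟩
        exact ⟨y j, rfl⟩
      · rw [finrank_span_eq_card hx, Fintype.card_fin]
        exact hmax x hxX
    rw [h3]
    exact Submodule.subset_span ⟨y', rfl⟩
  by_contra hlt
  push Not at hlt
  -- a functional
  set W : Fin r → Submodule ℂ (Fin N → ℂ) := fun j =>
    Submodule.span ℂ ((fun x => fun i => φ i x (y j)) '' X) with hW
  have hsum : Module.finrank ℂ (⨆ j, W j : Submodule ℂ (Fin N → ℂ)) ≤ r * e := by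
    have hgen : ∀ s : Finset (Fin r), Module.finrank ℂ (s.sup W : Submodule ℂ (Fin N → ℂ)) ≤ s.card * e := by
      intro s
      induction s using Finset.induction_on with
      | empty => simp
      | insert a s ha ih =>
        rw [Finset.sup_insert, Finset.card_insert_of_notMem ha]
        refine (Submodule.finrank_add_le_finrank_add_finrank _ _).trans ?_
        have := h2 (y a)
        have h4 : Module.finrank ℂ (W a) ≤ e := this
        linarith
    have := hgen Finset.univ
    rw [Finset.sup_univ_eq_iSup, Finset.card_univ, Fintype.card_fin] at this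
    exact this
  have hlt' : (⨆ j, W j : Submodule ℂ (Fin N → ℂ)) < ⊤ := by
    rw [lt_top_iff_ne_top]
    intro htop
    rw [htop, finrank_top, Module.finrank_fin_fun] at hsum
    have : r * e ≤ d * e := Nat.mul_le_mul_right e hrd
    omega
  obtain ⟨f, hf0, hf⟩ := Submodule.exists_le_ker_of_lt_top _ hlt'
  have hfv : ∀ v : Fin N → ℂ, f v = ∑ i, f (Pi.single i 1) * v i := by
    intro v
    have h3 : v = ∑ i, v i • (Pi.single i 1 : Fin N → ℂ) := by
      funext j
      simp [Finset.sum_apply, Pi.single_apply]
    conv_lhs => rw [h3]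
    rw [map_sum]
    refine Finset.sum_congr rfl fun i _ => ?_
    rw [map_smul, smul_eq_mul, mul_comm]
  have hc : (fun i => f (Pi.single i 1)) = (0 : Fin N → ℂ) := by
    apply hLI
    have h3 : ∀ᶠ x in 𝓝 x0, ∀ y', ∑ i, f (Pi.single i 1) * φ i x y' = 0 := by
      filter_upwards [hkey, hX.mem_nhds hx0] with x hx hxX y'
      have h4 : Submodule.span ℂ (range fun (j : Fin r) => fun i => φ i x (y j)) ≤ LinearMap.ker f := by
        rw [Submodule.span_le]
        rintro _ ⟨j, rfl⟩
        exact hf ((le_iSup W j) (Submodule.subset_span ⟨x, hxX, rfl⟩))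
      have h5 := h4 (hx y')
      rw [LinearMap.mem_ker, hfv] at h5
      exact h5
    intro x hx y'
    have h4 : AnalyticOnNhd ℂ (fun x => ∑ i, f (Pi.single i 1) * φ i x y') X := by
      have : (fun x => ∑ i, f (Pi.single i 1) * φ i x y') =
          ∑ i, fun x => f (Pi.single i 1) * φ i x y' := by
        funext x
        rw [Finset.sum_apply]
      rw [this]
      exact Finset.analyticOnNhd_sum _ fun i _ => analyticOnNhd_const.mul (ha i y')
    exact h4.eqOn_zero_of_preconnected_of_eventuallyEq_zero hXc hx0
      (h3.mono fun x hx => hx y') hx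
  apply hf0
  refine LinearMap.ext fun v => ?_
  rw [hfv]
  simp only [LinearMap.zero_apply]
  refine Finset.sum_eq_zero fun i _ => ?_
  have := congrFun hc i
  simp only [Pi.zero_apply] at this
  rw [this, zero_mul]

end Pool.Agent.Q45.HR
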