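import Pool.Agent.Q45.HR.PU
import Pool.Agent.Q45.HR.LA

/-! The kernel of a real-analytic function all of whose hyperplane restrictions have small rank. -/

set_option autoImplicit false

open Set Filter Metric Topology ComplexConjugate

namespace Pool.Agent.Q45.HR

/-- restrictions to (possibly degenerate) parametrised hyperplanes have rank at most `k` -/
def Small (m k : ℕ) (p : (Fin (m + 1) → ℂ) → ℝ) : Prop :=
  ∀ (a : Fin (m + 1) → ℂ) (L : (Fin m → ℂ) →ₗ[ℂ] (Fin (m + 1) → ℂ)),
    ∃ (ε : Fin k → ℝ) (g : Fin k → (Fin m → ℂ) → ℂ), (∀ j, Differentiable ℂ (g j)) ∧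
      ∀ x, p (a + L x) = ∑ j, ε j * Complex.normSq (g j x)

variable {m k : ℕ}

theorem comb_mem {E : Type*} [NormedAddCommGroup E] [NormedSpace ℂ E] {q A B : E} {δ : ℝ}
    (hA : A ∈ ball q (δ / 5)) (hB : B ∈ ball q (δ / 5)) {s : ℂ} (hs : ‖s‖ < 2) :
    A + s • (B - A) ∈ ball q δ := by
  rw [mem_ball, dist_eq_norm] at hA hB ⊢
  have h1 : A + s • (B - A) - q = (1 - s) • (A - q) + s • (B - q) := by
    rw [sub_smul, one_smul, smul_sub, smul_sub, smul_sub]
    abel
  rw [h1]
  refine (norm_add_le _ _).trans_lt ?_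
  rw [norm_smul, norm_smul]
  have h2 : ‖(1 : ℂ) - s‖ ≤ 3 := by
    refine (norm_sub_le _ _).trans ?_
    rw [norm_one]
    linarith
  have h3 : ‖1 - s‖ * ‖A - q‖ ≤ 3 * ‖A - q‖ := mul_le_mul_of_nonneg_right h2 (norm_nonneg _)
  have h4 : ‖s‖ * ‖B - q‖ ≤ 2 * ‖B - q‖ := mul_le_mul_of_nonneg_right hs.le (norm_nonneg _)
  linarith

theorem star_mem_ball {n : ℕ} {q x : Fin n → ℂ} {δ : ℝ} : star x ∈ ball (star q) δ ↔ x ∈ ball q δ := by
  rw [mem_ball, mem_ball, dist_eq_norm, dist_eq_norm, ← star_sub, norm_star]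

theorem kernel_eq {n : ℕ} {F : (Fin n → ℂ) × (Fin n → ℂ) → ℂ} {q : Fin n → ℂ} {δ : ℝ}
    (hF : DifferentiableOn ℂ F (ball q δ ×ˢ ball (star q) δ)) {p : (Fin n → ℂ) → ℝ}
    (hp : ∀ x ∈ ball q δ, F (x, star x) = p x) {m : ℕ} {a : Fin n → ℂ}
    {L : (Fin m → ℂ) →ₗ[ℂ] (Fin n → ℂ)} {ε : Fin k → ℝ} {g : Fin k → (Fin m → ℂ) → ℂ}
    (hg : ∀ j, Differentiable ℂ (g j))
    (h : ∀ x, p (a + L x) = ∑ j, ε j * Complex.normSq (g j x)) (x y : Fin m → ℂ)
    (hx : a + L x ∈ ball q (δ / 5)) (hy : a + L y ∈ ball q (δ / 5)) :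
    F (a + L x, star (a + L y)) = ∑ j, (ε j : ℂ) * (g j x * star (g j y)) := by
  set z := a + L x with hz
  set w := a + L y with hw
  set G : ℂ × ℂ → ℂ := fun t => F (w + t.1 • (z - w), star w + t.2 • (star z - star w)) -
    ∑ j, (ε j : ℂ) * (g j (y + t.1 • (x - y)) * star (g j (y + star t.2 • (x - y)))) with hG
  have hball : ∀ t ∈ ball (0 : ℂ) 2 ×ˢ ball (0 : ℂ) 2,
      (w + t.1 • (z - w), star w + t.2 • (star z - star w)) ∈ ball q δ ×ˢ ball (star q) δ := by
    intro t ht
    rw [mem_prod, mem_ball_zero_iff, mem_ball_zero_iff] at ht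
    exact ⟨comb_mem hy hx ht.1, comb_mem (star_mem_ball.mpr hy) (star_mem_ball.mpr hx) ht.2⟩
  have h1 : DifferentiableOn ℂ G (ball 0 2 ×ˢ ball 0 2) := by
    refine DifferentiableOn.sub ?_ ?_
    · exact hF.comp (by fun_prop) hball
    · refine Differentiable.differentiableOn ?_
      refine Differentiable.fun_sum fun j _ => ?_
      refine Differentiable.const_mul ?_ _
      refine Differentiable.mul ?_ ?_
      · exact (hg j).comp (by fun_prop)
      · have h2 : Differentiable ℂ (fun t : ℂ => g j (y + t • (x - y))) :=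
          (hg j).comp (by fun_prop)
        have h3 : Differentiable ℂ (fun t : ℂ => star (g j (y + star t • (x - y)))) := by
          intro t
          have := (h2 (star t)).star_star
          rw [star_star] at this
          exact this
        exact h3.comp differentiable_snd
  have h2 := polar h1 (by
    intro s hs
    have hs' : ‖s‖ < 2 := by rwa [mem_ball_zero_iff] at hs
    simp only [hG]
    have h3 : star w + conj s • (star z - star w) = star (w + s • (z - w)) := by
      rw [star_add w, star_smul, star_sub z]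
      rfl
    have h4 : w + s • (z - w) = a + L (y + s • (x - y)) := by
      rw [map_add, map_smul, map_sub, hz, hw]
      rw [add_sub_add_left_eq_sub, add_assoc]
    have h5 : star (conj s) = s := Complex.conj_conj s
    rw [h3, hp _ (comb_mem hy hx hs'), h4, h, h5, sub_eq_zero]
    push_cast
    refine Finset.sum_congr rfl fun j _ => ?_
    congr 1
    exact (Complex.mul_conj _).symm)
  simp only [hG] at h2
  rw [sub_eq_zero] at h2
  simp only [one_smul, zero_smul, add_zero, add_sub_cancel, star_zero] at h2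
  exact h2

theorem det_low_rank {k : ℕ} (A : Matrix (Fin (k + 1)) (Fin k) ℂ) (B : Matrix (Fin k) (Fin (k + 1)) ℂ) :
    (A * B).det = 0 := by
  by_contra h
  have h1 : IsUnit (A * B) := by
    rw [Matrix.isUnit_iff_isUnit_det]
    exact isUnit_iff_ne_zero.mpr h
  have h2 := Matrix.rank_of_isUnit _ h1
  rw [Fintype.card_fin] at h2
  have h3 := Matrix.rank_mul_le_left A B
  have h4 := Matrix.rank_le_width A
  omega

theorem minors_pair {F : (Fin (m + 1) → ℂ) × (Fin (m + 1) → ℂ) → ℂ} {q : Fin (m + 1) → ℂ} {δ : ℝ}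
    (hF : DifferentiableOn ℂ F (ball q δ ×ˢ ball (star q) δ)) {p : (Fin (m + 1) → ℂ) → ℝ}
    (hp : ∀ x ∈ ball q δ, F (x, star x) = p x) (hs : Small m k p)
    (a a' : Fin (m + 1) → ℂ) (L L' : (Fin m → ℂ) →ₗ[ℂ] (Fin (m + 1) → ℂ))
    (x y : Fin (k + 1) → (Fin m → ℂ))
    (h1 : ∀ i, a + L (x i) ∈ ball q (δ / 5 / 5)) (h2 : ∀ i, a' + L' (x i) ∈ ball q (δ / 5 / 5))
    (h3 : ∀ i, a + L (y i) ∈ ball q (δ / 5 / 5)) (h4 : ∀ i, a' + L' (y i) ∈ ball q (δ / 5 / 5)) :
    (Matrix.of fun i j => F (a + L (x i), star (a' + L' (y j)))).det = 0 := by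
  have hq : ∀ {z : Fin (m + 1) → ℂ}, z ∈ ball q (δ / 5) → z ∈ ball q δ := by
    intro z hz
    have h0 : 0 < δ / 5 := pos_of_mem_ball hz
    exact ball_subset_ball (by linarith) hz
  set G : ℂ × ℂ → ℂ := fun t => (Matrix.of fun i j =>
    F ((a' + L' (x i)) + t.1 • ((a + L (x i)) - (a' + L' (x i))),
      star (a' + L' (y j)) + t.2 • (star (a + L (y j)) - star (a' + L' (y j))))).det with hG
  have hball : ∀ t ∈ ball (0 : ℂ) 2 ×ˢ ball (0 : ℂ) 2, ∀ i j,
      ((a' + L' (x i)) + t.1 • ((a + L (x i)) - (a' + L' (x i))),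
      star (a' + L' (y j)) + t.2 • (star (a + L (y j)) - star (a' + L' (y j)))) ∈
        ball q δ ×ˢ ball (star q) δ := by
    intro t ht i j
    rw [mem_prod, mem_ball_zero_iff, mem_ball_zero_iff] at ht
    have e1 := comb_mem (h2 i) (h1 i) ht.1
    have e2 := comb_mem (star_mem_ball.mpr (h4 j)) (star_mem_ball.mpr (h3 j)) ht.2
    have h0 : 0 < δ / 5 := pos_of_mem_ball e1
    exact ⟨ball_subset_ball (by linarith) e1, ball_subset_ball (by linarith) e2⟩
  have hd : DifferentiableOn ℂ G (ball 0 2 ×ˢ ball 0 2) := by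
    simp only [hG, Matrix.det_apply, Matrix.of_apply]
    refine DifferentiableOn.fun_sum fun σ _ => ?_
    refine DifferentiableOn.const_smul ?_ _
    have hprod : ∀ s : Finset (Fin (k + 1)), DifferentiableOn ℂ (fun t : ℂ × ℂ => ∏ i ∈ s,
        F ((a' + L' (x (σ i))) + t.1 • ((a + L (x (σ i))) - (a' + L' (x (σ i)))),
        star (a' + L' (y i)) + t.2 • (star (a + L (y i)) - star (a' + L' (y i)))))
        (ball 0 2 ×ˢ ball 0 2) := by
      intro s
      induction s using Finset.induction_on with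
      | empty => simp
      | insert i s his ih =>
        simp only [Finset.prod_insert his]
        exact (hF.comp (by fun_prop) (fun t ht => hball t ht (σ i) i)).mul ih
    exact hprod Finset.univ
  have h5 := polar hd (by
    intro s hs'
    have hs2 : ‖s‖ < 2 := by rwa [mem_ball_zero_iff] at hs'
    obtain ⟨ε, g, hg, hrep⟩ := hs (a' + s • (a - a')) (L' + s • (L - L'))
    have e1 : ∀ v : Fin m → ℂ, (a' + L' v) + s • ((a + L v) - (a' + L' v)) =
        (a' + s • (a - a')) + (L' + s • (L - L')) v := by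
      intro v
      simp only [LinearMap.add_apply, LinearMap.smul_apply, LinearMap.sub_apply]
      rw [add_sub_add_comm, smul_add]
      abel
    have e2 : ∀ v w : Fin m → ℂ, a + L v ∈ ball q (δ / 5 / 5) → a' + L' v ∈ ball q (δ / 5 / 5) →
        a + L w ∈ ball q (δ / 5 / 5) → a' + L' w ∈ ball q (δ / 5 / 5) →
        F ((a' + L' v) + s • ((a + L v) - (a' + L' v)),
          star (a' + L' w) + conj s • (star (a + L w) - star (a' + L' w))) =
        ∑ j, (ε j : ℂ) * (g j v * star (g j w)) := by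
      intro v w h6 h7 h8 h9
      have h10 : star (a' + L' w) + conj s • (star (a + L w) - star (a' + L' w)) =
          star ((a' + L' w) + s • ((a + L w) - (a' + L' w))) := by
        rw [star_add (a' + L' w), star_smul, star_sub (a + L w)]
        rfl
      have h11 := comb_mem h7 h6 hs2
      have h12 := comb_mem h9 h8 hs2
      rw [h10]
      rw [e1] at h11 h12
      rw [e1, e1]
      exact kernel_eq hF hp hg hrep v w h11 h12
    simp only [hG]
    have e3 : (Matrix.of fun i j => F ((a' + L' (x i)) + s • ((a + L (x i)) - (a' + L' (x i))),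
        star (a' + L' (y j)) + conj s • (star (a + L (y j)) - star (a' + L' (y j))))) =
        (Matrix.of fun i l => (ε l : ℂ) * g l (x i)) * (Matrix.of fun l j => star (g l (y j))) := by
      ext i j
      rw [Matrix.of_apply, e2 _ _ (h1 i) (h2 i) (h3 j) (h4 j), Matrix.mul_apply]
      simp only [Matrix.of_apply]
      exact Finset.sum_congr rfl fun l _ => by ring
    rw [e3]
    exact det_low_rank _ _)
  simp only [hG, one_smul, zero_smul, add_zero, add_sub_cancel] at h5
  exact h5

end Pool.Agent.Q45.HR
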