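import Pool.Agent.Q45.HR.Herm
import Pool.Agent.Helper706.JD.B

/-! Local representations with a bounded number of squares. -/

set_option autoImplicit false

open Set Filter Metric Topology ComplexConjugate

namespace Pool.Agent.Q45.HR

variable {m k : ℕ}

theorem herm_symm {n : ℕ} {F : (Fin n → ℂ) × (Fin n → ℂ) → ℂ} {q : Fin n → ℂ} {δ : ℝ}
    (hF : DifferentiableOn ℂ F (ball q δ ×ˢ ball (star q) δ)) {p : (Fin n → ℂ) → ℝ}
    (hp : ∀ x ∈ ball q δ, F (x, star x) = p x) {x y : Fin n → ℂ}
    (hx : x ∈ ball q (δ / 5)) (hy : y ∈ ball q (δ / 5)) :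
    F (x, star y) = conj (F (y, star x)) := by
  set K : ℂ × ℂ → ℂ := fun t => F (y + t.2 • (x - y), star y + t.1 • (star x - star y)) with hK
  set G : ℂ × ℂ → ℂ := fun t => F (y + t.1 • (x - y), star y + t.2 • (star x - star y)) -
    star (K (star t)) with hG
  have hopen : IsOpen (ball q δ ×ˢ ball (star q) δ) := isOpen_ball.prod isOpen_ball
  have hmem : ∀ s ∈ ball (0 : ℂ) 2, ∀ t ∈ ball (0 : ℂ) 2,
      (y + s • (x - y), star y + t • (star x - star y)) ∈ ball q δ ×ˢ ball (star q) δ := by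
    intro s hs t ht
    rw [mem_ball_zero_iff] at hs ht
    exact ⟨comb_mem hy hx hs, comb_mem (star_mem_ball.mpr hy) (star_mem_ball.mpr hx) ht⟩
  have h1 : DifferentiableOn ℂ G (ball 0 2 ×ˢ ball 0 2) := by
    refine DifferentiableOn.sub ?_ ?_
    · exact hF.comp (by fun_prop) fun t ht => hmem _ ht.1 _ ht.2
    · intro t ht
      refine DifferentiableAt.differentiableWithinAt ?_
      have h2 : DifferentiableAt ℂ K (star t) := by
        have h3 : (star t) ∈ ball (0 : ℂ) 2 ×ˢ ball (0 : ℂ) 2 := by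
          rw [mem_prod, mem_ball_zero_iff, mem_ball_zero_iff] at ht ⊢
          exact ⟨by rw [Prod.fst_star, norm_star]; exact ht.1, by rw [Prod.snd_star, norm_star]; exact ht.2⟩
        have h4 := hmem _ h3.2 _ h3.1
        have h5 : DifferentiableAt ℂ F
            (y + (star t).2 • (x - y), star y + (star t).1 • (star x - star y)) :=
          (hF _ h4).differentiableAt (hopen.mem_nhds h4)
        exact h5.comp (f := fun t : ℂ × ℂ => (y + t.2 • (x - y), star y + t.1 • (star x - star y)))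
          (star t) (by fun_prop)
      have h6 := h2.star_star
      rw [star_star] at h6
      exact h6
  have h2 := polar h1 (by
    intro s hs
    have hs' : ‖s‖ < 2 := by rwa [mem_ball_zero_iff] at hs
    simp only [hG, hK]
    have h3 : star y + conj s • (star x - star y) = star (y + s • (x - y)) := by
      rw [star_add y, star_smul, star_sub x]
      rfl
    have h4 : (star ((s, conj s) : ℂ × ℂ)) = (conj s, s) := by
      ext
      · rfl
      · exact Complex.conj_conj s
    rw [h4]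
    simp only
    rw [h3, hp _ (comb_mem hy hx hs')]
    rw [sub_eq_zero]
    exact (Complex.conj_ofReal _).symm)
  simp only [hG, hK] at h2
  rw [sub_eq_zero] at h2
  have h4 : (star ((1, 0) : ℂ × ℂ)) = (1, 0) := by
    ext <;> simp
  rw [h4] at h2
  simp only [one_smul, zero_smul, add_zero, add_sub_cancel] at h2
  exact h2

theorem local_kernel {n : ℕ} {p : (Fin n → ℂ) → ℝ} {q : Fin n → ℂ} (hp : AnalyticAt ℝ p q) :
    ∃ (F : (Fin n → ℂ) × (Fin n → ℂ) → ℂ) (δ : ℝ), 0 < δ ∧
      AnalyticOnNhd ℂ F (ball q δ ×ˢ ball (star q) δ) ∧ ∀ x ∈ ball q δ, F (x, star x) = p x := by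
  have h1 : AnalyticAt ℝ (fun x => (p x : ℂ)) q :=
    AnalyticAt.comp (g := fun t : ℝ => (t : ℂ)) (Complex.ofRealCLM.analyticAt _) hp
  obtain ⟨F, hF, hFp⟩ := Pool.Agent.Results.MP_51bf1a_an.JetDet.exists_complexification h1
  have h2 := hF.eventually_analyticAt
  rw [Metric.eventually_nhds_iff_ball] at h2 hFp
  obtain ⟨δ₁, hδ₁, h2⟩ := h2
  obtain ⟨δ₂, hδ₂, h3⟩ := hFp
  refine ⟨F, min δ₁ δ₂, lt_min hδ₁ hδ₂, ?_, ?_⟩
  · rintro ⟨x, y⟩ ⟨hx, hy⟩
    apply h2
    rw [mem_ball, Prod.dist_eq, max_lt_iff]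
    exact ⟨lt_of_lt_of_le hx (min_le_left _ _), lt_of_lt_of_le hy (min_le_left _ _)⟩
  · intro x hx
    exact h3 x (ball_subset_ball (min_le_right _ _) hx)

theorem local_rep {p : (Fin (m + 1) → ℂ) → ℝ} {q : Fin (m + 1) → ℂ} (hpan : AnalyticAt ℝ p q)
    (hs : Small m k p) (i0 : Fin m) :
    ∃ (R : ℕ) (ρ : ℝ) (ε : Fin R → ℝ) (f : Fin R → (Fin (m + 1) → ℂ) → ℂ),
      R ≤ 2 * ((k * k) * (k * k)) ∧ 0 < ρ ∧ (∀ l, ε l = 1 ∨ ε l = -1) ∧
      (∀ l, AnalyticOnNhd ℂ (f l) (ball q ρ)) ∧
      ∀ z ∈ ball q ρ, p z = ∑ l, ε l * Complex.normSq (f l z) := by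
  obtain ⟨F, δ, hδ, hF, hp⟩ := local_kernel hpan
  have hρ : 0 < δ / 5 / 5 := by positivity
  set N := (k * k) * (k * k) with hN
  -- maximal minor
  set P : ℕ → Prop := fun r => ∃ z w : Fin r → (Fin (m + 1) → ℂ), (∀ i, z i ∈ ball q (δ / 5 / 5)) ∧
    (∀ i, w i ∈ ball q (δ / 5 / 5)) ∧ (Matrix.of fun i j => F (z i, star (w j))).det ≠ 0 with hP
  have hP0 : P 0 := ⟨Fin.elim0, Fin.elim0, fun i => i.elim0, fun i => i.elim0, by simp⟩
  have hPN : ¬ P (N + 1) := by
    rintro ⟨z, w, hz, hw, h⟩
    exact h (step_two hF hδ hp hs i0 z w hz hw)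
  obtain ⟨r, hrN, hPr, hPr1⟩ : ∃ r ≤ N, P r ∧ ¬ P (r + 1) := by
    by_contra hcon
    push Not at hcon
    have : ∀ r ≤ N + 1, P r := by
      intro r
      induction r with
      | zero => exact fun _ => hP0
      | succ r ih =>
        intro hr
        exact hcon r (by omega) (ih (by omega))
    exact hPN (this _ le_rfl)
  obtain ⟨z, w, hz, hw, hdet⟩ := hPr
  set A : Matrix (Fin r) (Fin r) ℂ := Matrix.of fun i j => F (z i, star (w j)) with hA
  have hmain : ∀ x ∈ ball q (δ / 5 / 5), ∀ y ∈ ball q (δ / 5 / 5),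
      F (x, star y) = ∑ i, ∑ j, A⁻¹ i j * (F (x, star (w i)) * F (z j, star y)) := by
    intro x hx y hy
    set u : Fin r → (ball q (δ / 5 / 5)) → ℂ := fun i x => F ((x : Fin (m + 1) → ℂ), star (w i)) with hu
    set v : (ball q (δ / 5 / 5)) → ℂ := fun x => F ((x : Fin (m + 1) → ℂ), star y) with hv
    have hLI : LinearIndependent ℂ u := by
      refine linInd_of_minor u (fun i => ⟨z i, hz i⟩) ?_
      rw [← Matrix.det_transpose]
      exact hdet
    have hnLI : ¬ LinearIndependent ℂ (Fin.cons v u : Fin (r + 1) → _) := by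
      intro h
      obtain ⟨s, hs'⟩ := exists_minor _ h
      refine hPr1 ⟨fun i => (s i : Fin (m + 1) → ℂ), Fin.cons y w, fun i => (s i).2, ?_, ?_⟩
      · intro i
        refine Fin.cases ?_ (fun j => ?_) i
        · exact hy
        · exact hw j
      · rw [← Matrix.det_transpose]
        have : (Matrix.of fun i j => F ((s i : Fin (m + 1) → ℂ),
            star ((Fin.cons y w : Fin (r + 1) → (Fin (m + 1) → ℂ)) j))).transpose =
            Matrix.of fun i j => (Fin.cons v u : Fin (r + 1) → _) i (s j) := by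
          ext i j
          rw [Matrix.transpose_apply, Matrix.of_apply, Matrix.of_apply]
          refine Fin.cases ?_ (fun i' => ?_) i
          · rfl
          · rfl
        rw [this]
        exact hs'
    rw [linearIndependent_finCons] at hnLI
    have hmem : v ∈ Submodule.span ℂ (range u) := by
      by_contra h
      exact hnLI ⟨hLI, h⟩
    rw [Submodule.mem_span_range_iff_exists_fun] at hmem
    obtain ⟨c, hc⟩ := hmem
    have hc' : ∀ x' (hx' : x' ∈ ball q (δ / 5 / 5)), F (x', star y) = ∑ i, c i * F (x', star (w i)) := by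
      intro x' hx'
      have := congrFun hc ⟨x', hx'⟩
      rw [Finset.sum_apply] at this
      exact this.symm
    have hcA : c = A⁻¹.mulVec (fun j => F (z j, star y)) := by
      have h1 : A.mulVec c = fun j => F (z j, star y) := by
        funext j
        rw [hc' (z j) (hz j), Matrix.mulVec, dotProduct]
        refine Finset.sum_congr rfl fun i _ => ?_
        rw [hA, Matrix.of_apply, mul_comm]
      rw [← h1, Matrix.mulVec_mulVec, Matrix.nonsing_inv_mul _ (isUnit_iff_ne_zero.mpr hdet),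
        Matrix.one_mulVec]
    rw [hc' x hx, hcA]
    refine Finset.sum_congr rfl fun i _ => ?_
    rw [Matrix.mulVec, dotProduct, Finset.sum_mul]
    refine Finset.sum_congr rfl fun j _ => ?_
    ring
  have hball5 : ball q (δ / 5 / 5) ⊆ ball q (δ / 5) := ball_subset_ball (by linarith)
  have hball1 : ball q (δ / 5 / 5) ⊆ ball q δ := ball_subset_ball (by linarith)
  -- the functions
  set f : Fin (r + r) → (Fin (m + 1) → ℂ) → ℂ :=
    Fin.append (fun i x => F (x, star (w i))) (fun j x => F (x, star (z j))) with hf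
  set M : Matrix (Fin (r + r)) (Fin (r + r)) ℂ := Matrix.of fun i j =>
    Fin.addCases (fun i' => Fin.addCases (fun _ => (0 : ℂ)) (fun j' => A⁻¹ i' j') j)
      (fun _ => (0 : ℂ)) i with hM
  have hfan : ∀ l, AnalyticOnNhd ℂ (f l) (ball q (δ / 5 / 5)) := by
    intro l
    have hgen : ∀ y ∈ ball q (δ / 5 / 5), AnalyticOnNhd ℂ (fun x => F (x, star y)) (ball q (δ / 5 / 5)) := by
      intro y hy x hx
      exact AnalyticAt.comp (g := F) (f := fun x => (x, star y))
        (hF _ ⟨hball1 hx, star_mem_ball.mpr (hball1 hy)⟩) (analyticAt_id.prod analyticAt_const)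
    refine Fin.addCases (fun i => ?_) (fun j => ?_) l
    · rw [hf, Fin.append_left]
      exact hgen _ (hw i)
    · rw [hf, Fin.append_right]
      exact hgen _ (hz j)
  have hrep : ∀ x ∈ ball q (δ / 5 / 5), (p x : ℂ) = ∑ i, ∑ j, M i j * (f i x * conj (f j x)) := by
    intro x hx
    rw [← hp x (hball1 hx), hmain x hx x hx, Fin.sum_univ_add]
    have h1 : ∀ i : Fin r, ∑ j, M (Fin.natAdd r i) j * (f (Fin.natAdd r i) x * conj (f j x)) = 0 := by
      intro i
      refine Finset.sum_eq_zero fun j _ => ?_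
      rw [hM, Matrix.of_apply, Fin.addCases_right, zero_mul]
    rw [Finset.sum_congr rfl (fun i _ => h1 i), Finset.sum_const_zero, add_zero]
    refine Finset.sum_congr rfl fun i _ => ?_
    rw [Fin.sum_univ_add]
    have h2 : ∑ j : Fin r, M (Fin.castAdd r i) (Fin.castAdd r j) *
        (f (Fin.castAdd r i) x * conj (f (Fin.castAdd r j) x)) = 0 := by
      refine Finset.sum_eq_zero fun j _ => ?_
      rw [hM, Matrix.of_apply, Fin.addCases_left, Fin.addCases_left, zero_mul]
    rw [h2, zero_add]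
    refine Finset.sum_congr rfl fun j _ => ?_
    rw [hM, Matrix.of_apply, Fin.addCases_left, Fin.addCases_right, hf, Fin.append_left,
      Fin.append_right]
    rw [herm_symm hF.differentiableOn hp (hball5 (hz j)) (hball5 hx)]
  obtain ⟨ε, U, hε, hU⟩ := signed M f p _ hrep
  refine ⟨r + r, δ / 5 / 5, ε, fun l x => ∑ i, U l i * f i x, by omega, hρ, hε, ?_, hU⟩
  intro l
  have : (fun x => ∑ i, U l i * f i x) = ∑ i, fun x => U l i * f i x := by
    funext x
    rw [Finset.sum_apply]
  show AnalyticOnNhd ℂ (fun x => ∑ i, U l i * f i x) _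
  rw [this]
  exact Finset.analyticOnNhd_sum _ fun i _ => analyticOnNhd_const.mul (hfan i)

end Pool.Agent.Q45.HR
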