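import Mathlib

/-! Uniqueness of polarisation, in one complex variable. -/

set_option autoImplicit false

open Set Filter Metric Topology ComplexConjugate

namespace Pool.Agent.Q45.HR

/-- A holomorphic function on the unit disc that vanishes at the real points vanishes. -/
theorem zero_of_real {f : ℂ → ℂ} (hf : DifferentiableOn ℂ f (ball 0 1))
    (h0 : ∀ u : ℝ, |u| < 1 → f u = 0) : ∀ z ∈ ball (0 : ℂ) 1, f z = 0 := by
  have ha : AnalyticOnNhd ℂ f (ball 0 1) := hf.analyticOnNhd isOpen_ball
  have hfr : ∃ᶠ z in 𝓝[≠] (0 : ℂ), f z = 0 := by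
    have h1 : Tendsto (fun n : ℕ => (((1 : ℝ) / (n + 2) : ℝ) : ℂ)) atTop (𝓝[≠] 0) := by
      rw [tendsto_nhdsWithin_iff]
      constructor
      · have h2 : Tendsto (fun n : ℕ => ((1 : ℝ) / (n + 2) : ℝ)) atTop (𝓝 0) := by
          refine tendsto_const_nhds.div_atTop ?_
          exact tendsto_atTop_add_const_right _ _ tendsto_natCast_atTop_atTop
        have := (Complex.continuous_ofReal.tendsto 0).comp h2
        rw [Complex.ofReal_zero] at this
        exact this
      · refine Eventually.of_forall fun n => ?_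
        rw [mem_compl_iff, mem_singleton_iff, Complex.ofReal_eq_zero]
        positivity
    refine h1.frequently (Frequently.of_forall fun n => h0 _ ?_)
    rw [abs_of_nonneg (by positivity), div_lt_one (by positivity)]
    have : (0 : ℝ) ≤ n := Nat.cast_nonneg n
    linarith
  intro z hz
  exact ha.eqOn_zero_of_preconnected_of_frequently_eq_zero
    (convex_ball (0 : ℂ) 1).isPreconnected (mem_ball_self one_pos) hfr hz

/-- If `G(s, s̄) = 0` then `G(1, 0) = 0`. -/
theorem polar {G : ℂ × ℂ → ℂ} (hG : DifferentiableOn ℂ G (ball 0 2 ×ˢ ball 0 2))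
    (h0 : ∀ s ∈ ball (0 : ℂ) 2, G (s, conj s) = 0) : G (1, 0) = 0 := by
  set H : ℂ → ℂ → ℂ := fun u v => G (u + Complex.I * v, u - Complex.I * v) with hH
  have hmem : ∀ u v : ℂ, ‖u‖ + ‖v‖ < 2 →
      (u + Complex.I * v, u - Complex.I * v) ∈ ball (0 : ℂ) 2 ×ˢ ball (0 : ℂ) 2 := by
    intro u v h
    rw [mem_prod, mem_ball_zero_iff, mem_ball_zero_iff]
    have h1 : ‖Complex.I * v‖ = ‖v‖ := by rw [norm_mul, Complex.norm_I, one_mul]
    constructor
    · exact (norm_add_le _ _).trans_lt (by rw [h1]; exact h)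
    · exact (norm_sub_le _ _).trans_lt (by rw [h1]; exact h)
  have hreal : ∀ u v : ℝ, |u| < 1 → |v| < 1 → H u v = 0 := by
    intro u v hu hv
    have h1 := h0 (u + Complex.I * v) (by
      have := (hmem u v (by simp only [Complex.norm_real, Real.norm_eq_abs]; linarith)).1
      exact this)
    have h2 : conj ((u : ℂ) + Complex.I * v) = u - Complex.I * v := by
      simp [sub_eq_add_neg]
    rw [h2] at h1
    exact h1
  have hstep1 : ∀ u : ℝ, |u| < 1 → ∀ v ∈ ball (0 : ℂ) 1, H u v = 0 := by
    intro u hu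
    refine zero_of_real ?_ fun v hv => hreal u v hu hv
    refine hG.comp (s := ball 0 1) (by fun_prop) ?_
    intro v hv
    rw [mem_ball_zero_iff] at hv
    exact hmem u v (by simp only [Complex.norm_real, Real.norm_eq_abs]; linarith)
  have hstep2 : ∀ v ∈ ball (0 : ℂ) 1, ∀ u ∈ ball (0 : ℂ) 1, H u v = 0 := by
    intro v hv
    refine zero_of_real (f := fun u => H u v) ?_ fun u hu => hstep1 u hu v hv
    refine hG.comp (s := ball 0 1) (f := fun u : ℂ => (u + Complex.I * v, u - Complex.I * v))
      (by fun_prop) ?_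
    intro u hu
    rw [mem_ball_zero_iff] at hu hv
    exact hmem u v (by linarith)
  have h1 := hstep2 (-Complex.I / 2) (by rw [mem_ball_zero_iff]; simp; norm_num) (1 / 2)
    (by rw [mem_ball_zero_iff]; norm_num)
  have h2 : ((1 : ℂ) / 2 + Complex.I * (-Complex.I / 2), (1 : ℂ) / 2 - Complex.I * (-Complex.I / 2)) =
      ((1 : ℂ), (0 : ℂ)) := by
    have : Complex.I * Complex.I = -1 := Complex.I_mul_I
    ext <;> simp <;> ring_nf <;> simp <;> norm_num
  simp only [hH] at h1
  rw [h2] at h1
  exact h1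

end Pool.Agent.Q45.HR
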