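import Pool.Agent.Q45.HR.Ker

/-! Slices of a polydisc and the rank of the kernel. -/

set_option autoImplicit false

open Set Filter Metric Topology ComplexConjugate

namespace Pool.Agent.Q45.HR

variable {m k : ℕ}

/-- `(η, x)` -/
def cn (η : ℂ) (x : Fin m → ℂ) : Fin (m + 1) → ℂ := Fin.cons η x

theorem cn_add (η η' : ℂ) (x x' : Fin m → ℂ) : cn η x + cn η' x' = cn (η + η') (x + x') := by
  funext i
  refine Fin.cases ?_ (fun j => ?_) i <;> simp [cn]

theorem star_cn (η : ℂ) (x : Fin m → ℂ) : star (cn η x) = cn (conj η) (star x) := by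
  funext i
  refine Fin.cases ?_ (fun j => ?_) i <;> simp [cn]

theorem cn_eta (z : Fin (m + 1) → ℂ) : cn (z 0) (Fin.tail z) = z := Fin.cons_self_tail z

/-- base points of the slices -/
def sA (q : Fin (m + 1) → ℂ) : ℂ ⊕ (Fin m → ℂ) → (Fin (m + 1) → ℂ)
  | Sum.inl η => cn η (Fin.tail q)
  | Sum.inr ξ => cn (q 0) ξ

/-- directions of the slices -/
def sL (i0 : Fin m) : ℂ ⊕ (Fin m → ℂ) → ((Fin m → ℂ) →ₗ[ℂ] (Fin (m + 1) → ℂ))
  | Sum.inl _ =>
    { toFun := fun x => cn 0 x
      map_add' := fun x y => by rw [cn_add, add_zero]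
      map_smul' := fun c x => by
        funext i
        refine Fin.cases ?_ (fun j => ?_) i <;> simp [cn] }
  | Sum.inr _ =>
    { toFun := fun x => cn (x i0) 0
      map_add' := fun x y => by rw [cn_add, add_zero]; rfl
      map_smul' := fun c x => by
        funext i
        refine Fin.cases ?_ (fun j => ?_) i <;> simp [cn] }

theorem aff_inl (q : Fin (m + 1) → ℂ) (i0 : Fin m) (η : ℂ) (x : Fin m → ℂ) :
    sA q (Sum.inl η) + sL i0 (Sum.inl η) x = cn η (Fin.tail q + x) := by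
  show cn η (Fin.tail q) + cn 0 x = _
  rw [cn_add, add_zero]

theorem aff_inr (q : Fin (m + 1) → ℂ) (i0 : Fin m) (ξ : Fin m → ℂ) (x : Fin m → ℂ) :
    sA q (Sum.inr ξ) + sL i0 (Sum.inr ξ) x = cn (q 0 + x i0) ξ := by
  show cn (q 0) ξ + cn (x i0) 0 = _
  rw [cn_add, add_zero]

theorem cn_mem {q : Fin (m + 1) → ℂ} {ρ : ℝ} {η : ℂ} {x : Fin m → ℂ} (h1 : η ∈ ball (q 0) ρ)
    (h2 : x ∈ ball (Fin.tail q) ρ) : cn η x ∈ ball q ρ := by
  have hρ : 0 < ρ := pos_of_mem_ball h1
  rw [mem_ball, dist_pi_lt_iff hρ] at h2 ⊢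
  intro i
  refine Fin.cases ?_ (fun j => ?_) i
  · exact h1
  · exact h2 j

theorem mem_cn {q z : Fin (m + 1) → ℂ} {ρ : ℝ} (h : z ∈ ball q ρ) :
    z 0 ∈ ball (q 0) ρ ∧ Fin.tail z ∈ ball (Fin.tail q) ρ := by
  have hρ : 0 < ρ := pos_of_mem_ball h
  rw [mem_ball, dist_pi_lt_iff hρ] at h
  refine ⟨h 0, ?_⟩
  rw [mem_ball, dist_pi_lt_iff hρ]
  exact fun i => h i.succ

/-- the admissible slices -/
def OK (q : Fin (m + 1) → ℂ) (ρ : ℝ) : ℂ ⊕ (Fin m → ℂ) → Prop
  | Sum.inl η => η ∈ ball (q 0) ρ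
  | Sum.inr ξ => ξ ∈ ball (Fin.tail q) ρ

theorem aff_mem {q : Fin (m + 1) → ℂ} {ρ : ℝ} (i0 : Fin m) {S : ℂ ⊕ (Fin m → ℂ)} (hS : OK q ρ S)
    {x : Fin m → ℂ} (hx : x ∈ ball 0 ρ) : sA q S + sL i0 S x ∈ ball q ρ := by
  have hρ : 0 < ρ := pos_of_mem_ball hx
  rw [mem_ball_zero_iff] at hx
  rcases S with η | ξ
  · rw [aff_inl]
    refine cn_mem hS ?_
    rw [mem_ball, dist_eq_norm, add_sub_cancel_left]
    exact hx
  · rw [aff_inr]
    refine cn_mem ?_ hS
    rw [mem_ball, dist_eq_norm, add_sub_cancel_left]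
    exact (norm_le_pi_norm x i0).trans_lt hx

section
variable {F : (Fin (m + 1) → ℂ) × (Fin (m + 1) → ℂ) → ℂ} {q : Fin (m + 1) → ℂ} {δ : ℝ}
  {p : (Fin (m + 1) → ℂ) → ℝ}

theorem minors_slices (hF : DifferentiableOn ℂ F (ball q δ ×ˢ ball (star q) δ))
    (hp : ∀ x ∈ ball q δ, F (x, star x) = p x) (hs : Small m k p) (i0 : Fin m)
    {S S' : ℂ ⊕ (Fin m → ℂ)} (hS : OK q (δ / 5 / 5) S) (hS' : OK q (δ / 5 / 5) S')
    (x y : Fin (k + 1) → (Fin m → ℂ)) (hx : ∀ i, x i ∈ ball 0 (δ / 5 / 5))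
    (hy : ∀ i, y i ∈ ball 0 (δ / 5 / 5)) :
    (Matrix.of fun i j => F (sA q S + sL i0 S (x i), star (sA q S' + sL i0 S' (y j)))).det = 0 :=
  minors_pair hF hp hs _ _ _ _ x y (fun i => aff_mem i0 hS (hx i)) (fun i => aff_mem i0 hS' (hx i))
    (fun i => aff_mem i0 hS (hy i)) (fun i => aff_mem i0 hS' (hy i))

/-- abstract product step: a family of analytic functions on the polydisc whose slices have rank at
most `e` has rank at most `e * e` -/
theorem prod_step {N e : ℕ} {ρ : ℝ} (hρ : 0 < ρ) (φ : Fin N → (Fin (m + 1) → ℂ) → ℂ)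
    (ha : ∀ i, AnalyticOnNhd ℂ (φ i) (ball q ρ))
    (h1 : ∀ (ξ : Fin m → ℂ), ξ ∈ ball (Fin.tail q) ρ → ∀ (i : Fin (e + 1) → Fin N)
      (η : Fin (e + 1) → ℂ), (∀ j, η j ∈ ball (q 0) ρ) →
      (Matrix.of fun a b => φ (i a) (cn (η b) ξ)).det = 0)
    (h2 : ∀ (η : ℂ), η ∈ ball (q 0) ρ → ∀ (i : Fin (e + 1) → Fin N)
      (ξ : Fin (e + 1) → (Fin m → ℂ)), (∀ j, ξ j ∈ ball (Fin.tail q) ρ) →
      (Matrix.of fun a b => φ (i a) (cn η (ξ b))).det = 0)
    (hLI : ∀ c : Fin N → ℂ, (∀ z ∈ ball q ρ, ∑ i, c i * φ i z = 0) → c = 0) : N ≤ e * e := by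
  have hlin : ∀ η : ℂ, AnalyticOnNhd ℂ (fun x : Fin m → ℂ => cn η x) univ := by
    intro η x _
    rw [analyticAt_pi_iff]
    intro i
    refine Fin.cases ?_ (fun j => ?_) i
    · simp only [cn, Fin.cons_zero]
      exact analyticAt_const
    · simp only [cn, Fin.cons_succ]
      exact (ContinuousLinearMap.proj (R := ℂ) (φ := fun _ : Fin m => ℂ) j).analyticAt x
  refine prod_rank (X := ball (Fin.tail q) ρ) isOpen_ball (convex_ball _ _).isPreconnected
    (nonempty_ball.mpr hρ) (Y := ball (q 0) ρ) (fun i x y => φ i (cn y x)) ?_ ?_ ?_ ?_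
  · intro i y x hx
    exact AnalyticAt.comp (g := φ i) (f := fun x => cn (y : ℂ) x) (ha i _ (cn_mem y.2 hx))
      (hlin y x (mem_univ _))
  · intro x hx
    refine finrank_le_of_minors (S := ball (q 0) ρ) (fun i y => φ i (cn (y : ℂ) x)) ?_
    intro i s
    exact h1 x hx i (fun b => (s b : ℂ)) fun j => (s j).2
  · intro y
    have := finrank_le_of_minors (S := ball (Fin.tail q) ρ) (d := e)
      (fun (i : Fin N) x => φ i (cn (y : ℂ) (x : Fin m → ℂ))) (by
        intro i s
        exact h2 y y.2 i (fun b => (s b : Fin m → ℂ)) fun j => (s j).2)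
    have h3 : ((fun x => fun i => φ i (cn (y : ℂ) x)) '' ball (Fin.tail q) ρ) =
        range (fun (s : ball (Fin.tail q) ρ) => fun i => φ i (cn (y : ℂ) (s : Fin m → ℂ))) := by
      rw [image_eq_range]
    rw [h3]
    exact this
  · intro c hc
    apply hLI
    intro z hz
    have h3 := mem_cn hz
    have := hc (Fin.tail z) h3.2 ⟨z 0, h3.1⟩
    simp only [cn_eta] at this
    exact this

theorem vec_zero {N : ℕ} {M : Matrix (Fin N) (Fin N) ℂ} (h : M.det ≠ 0) {c : Fin N → ℂ}
    (hc : ∀ j, ∑ i, c i * M i j = 0) : c = 0 :=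
  Matrix.eq_zero_of_vecMul_eq_zero h (funext fun j => hc j)

/-- Step I. -/
theorem step_one (hF : AnalyticOnNhd ℂ F (ball q δ ×ˢ ball (star q) δ)) (hδ : 0 < δ)
    (hp : ∀ x ∈ ball q δ, F (x, star x) = p x) (hs : Small m k p) (i0 : Fin m)
    {S : ℂ ⊕ (Fin m → ℂ)} (hS : OK q (δ / 5 / 5) S)
    (x : Fin (k * k + 1) → (Fin m → ℂ)) (w : Fin (k * k + 1) → (Fin (m + 1) → ℂ))
    (hx : ∀ i, x i ∈ ball 0 (δ / 5 / 5)) (hw : ∀ i, w i ∈ ball q (δ / 5 / 5)) :
    (Matrix.of fun i j => F (sA q S + sL i0 S (x i), star (w j))).det = 0 := by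
  by_contra hne
  have hρ : 0 < δ / 5 / 5 := by positivity
  have hsub : ball (star q) (δ / 5 / 5) ⊆ ball (star q) δ := ball_subset_ball (by linarith)
  have hsub' : ball q (δ / 5 / 5) ⊆ ball q δ := ball_subset_ball (by linarith)
  have h0 : (star q) 0 = conj (q 0) := rfl
  have ht : Fin.tail (star q) = star (Fin.tail q) := rfl
  have := prod_step (q := star q) (N := k * k + 1) (e := k) hρ
    (fun i ω => F (sA q S + sL i0 S (x i), ω)) ?_ ?_ ?_ ?_
  · omega
  · intro i ω hω
    exact AnalyticAt.comp (g := F) (f := fun ω => (sA q S + sL i0 S (x i), ω))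
      (hF _ ⟨hsub' (aff_mem i0 hS (hx i)), hsub hω⟩) (analyticAt_const.prod analyticAt_id)
  · intro ξ hξ i η hη
    rw [ht] at hξ
    have h3 : star ξ ∈ ball (Fin.tail q) (δ / 5 / 5) := by
      rw [← star_mem_ball, star_star]; exact hξ
    have h4 := minors_slices hF.differentiableOn hp hs i0 hS (S' := Sum.inr (star ξ)) h3
      (fun a => x (i a)) (fun b => fun _ => conj (η b) - q 0) (fun a => hx _) (by
        intro b
        have h5 := hη b
        rw [mem_ball_zero_iff, pi_norm_lt_iff hρ]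
        intro _
        rw [h0, mem_ball, dist_eq_norm] at h5
        have h6 : conj (η b) - q 0 = conj (η b - conj (q 0)) := by simp
        rw [h6, Complex.norm_conj]
        exact h5)
    simp only [aff_inr, star_cn, star_star] at h4
    have h5 : ∀ b, (conj (q 0 + (conj (η b) - q 0)) : ℂ) = η b := by
      intro b
      simp
    simp only [h5] at h4
    exact h4
  · intro η hη i ξ hξ
    rw [h0] at hη
    have h3 : conj η ∈ ball (q 0) (δ / 5 / 5) := by
      rw [mem_ball, dist_eq_norm] at hη ⊢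
      have h6 : conj η - q 0 = conj (η - conj (q 0)) := by simp
      rw [h6, Complex.norm_conj]
      exact hη
    have h4 := minors_slices hF.differentiableOn hp hs i0 hS (S' := Sum.inl (conj η)) h3
      (fun a => x (i a)) (fun b => star (ξ b) - Fin.tail q) (fun a => hx _) (by
        intro b
        have h5 := hξ b
        rw [ht, mem_ball, dist_eq_norm] at h5
        rw [mem_ball_zero_iff]
        have h6 : star (ξ b) - Fin.tail q = star (ξ b - star (Fin.tail q)) := by
          rw [star_sub, star_star]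
        rw [h6, norm_star]
        exact h5)
    simp only [aff_inl, star_cn, add_sub_cancel, star_star, Complex.conj_conj] at h4
    exact h4
  · intro c hc
    refine vec_zero hne fun j => ?_
    simp only [Matrix.of_apply]
    exact hc _ (star_mem_ball.mpr (hw j))

/-- Step II. -/
theorem step_two (hF : AnalyticOnNhd ℂ F (ball q δ ×ˢ ball (star q) δ)) (hδ : 0 < δ)
    (hp : ∀ x ∈ ball q δ, F (x, star x) = p x) (hs : Small m k p) (i0 : Fin m)
    (z w : Fin ((k * k) * (k * k) + 1) → (Fin (m + 1) → ℂ))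
    (hz : ∀ i, z i ∈ ball q (δ / 5 / 5)) (hw : ∀ i, w i ∈ ball q (δ / 5 / 5)) :
    (Matrix.of fun i j => F (z i, star (w j))).det = 0 := by
  by_contra hne
  have hρ : 0 < δ / 5 / 5 := by positivity
  have hsub : ball (star q) (δ / 5 / 5) ⊆ ball (star q) δ := ball_subset_ball (by linarith)
  have hsub' : ball q (δ / 5 / 5) ⊆ ball q δ := ball_subset_ball (by linarith)
  have := prod_step (q := q) (N := (k * k) * (k * k) + 1) (e := k * k) hρ
    (fun j z => F (z, star (w j))) ?_ ?_ ?_ ?_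
  · omega
  · intro i z hz
    exact AnalyticAt.comp (g := F) (f := fun z => (z, star (w i)))
      (hF _ ⟨hsub' hz, hsub (star_mem_ball.mpr (hw i))⟩) (analyticAt_id.prod analyticAt_const)
  · intro ξ hξ i η hη
    have h4 := step_one hF hδ hp hs i0 (S := Sum.inr ξ) hξ
      (fun b => fun _ => η b - q 0) (fun a => w (i a)) (by
        intro b
        have h5 := hη b
        rw [mem_ball_zero_iff, pi_norm_lt_iff hρ]
        intro _
        rw [mem_ball, dist_eq_norm] at h5
        exact h5) (fun a => hw _)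
    simp only [aff_inr, add_sub_cancel] at h4
    rw [← Matrix.det_transpose] at h4
    exact h4
  · intro η hη i ξ hξ
    have h4 := step_one hF hδ hp hs i0 (S := Sum.inl η) hη
      (fun b => ξ b - Fin.tail q) (fun a => w (i a)) (by
        intro b
        have h5 := hξ b
        rw [mem_ball, dist_eq_norm] at h5
        rw [mem_ball_zero_iff]
        exact h5) (fun a => hw _)
    simp only [aff_inl, add_sub_cancel] at h4
    rw [← Matrix.det_transpose] at h4
    exact h4
  · intro c hc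
    rw [← Matrix.det_transpose] at hne
    refine vec_zero hne fun j => ?_
    simp only [Matrix.transpose_apply, Matrix.of_apply]
    exact hc _ (hz j)

end

end Pool.Agent.Q45.HR
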